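import Mathlib

/-!
# The Brjuno condition is not necessary for linearization in dimension at least three

For every `n ≥ 3` we exhibit `λ = (ρ, u/2, 1/2, …, 1/2)` with `|ρ| = |u| = 1`, without resonances,
whose Brjuno series diverges although every germ with diagonalizable differential and eigenvalues
`λ` is holomorphically linearizable.

* `ρ = exp(-2πi√2)` is badly approximable, and `u = exp(2πiβ)` is chosen so that
  `|ρ^c - u|` is about `x^c` (`x = 3 - 2√2`) for a very sparse sequence of times `c`, and never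
  much smaller. The near resonances `ρ^c λ_3 ≈ λ_2` make the Brjuno series diverge.
* These exponentially small divisors only occur for monomials of degree one in the contracting
  variables. In the combinatorial expansion of the linearizing series each of them is met at most
  once along a branch, so their total contribution stays exponential. All other divisors are
  bounded below, or of Siegel type.
* `linearise` is a general linearization theorem: it suffices to have a weight `D` on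
  multi-indices with `D(k) D(k') ≤ D(k + k') |λ^{k+k'} - λ_j|` and at most exponential growth.
-/

set_option autoImplicit false

open Filter Topology Asymptotics Finset FormalMultilinearSeries

namespace Pool.Agent.Results.MP_0ef3a5_an.NotNecessary

/-! ## Definitions used in the statement -/

/-- `Ω_λ(m)`: the least of the numbers `|λ^k - λ_j|`, over the multi-indices `k` with
`2 ≤ |k| ≤ m` and the indices `j` for which `λ^k ≠ λ_j`. -/
noncomputable def Omega {n : ℕ} (lam : Fin n → ℂ) (m : ℕ) : ℝ :=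
  sInf {x : ℝ | ∃ (k : Fin n → ℕ) (j : Fin n), 2 ≤ ∑ i, k i ∧ ∑ i, k i ≤ m ∧
    ∏ i, lam i ^ k i ≠ lam j ∧ x = ‖∏ i, lam i ^ k i - lam j‖}

/-- The Brjuno series `∑_p 2^{-p} log (1 / Ω_λ(2^{p+1}))` diverges to `+∞`. -/
def BrjunoSeriesDiverges {n : ℕ} (lam : Fin n → ℂ) : Prop :=
  Tendsto (fun N : ℕ => ∑ p ∈ Finset.range N,
    (1 / 2 : ℝ) ^ p * Real.log (1 / Omega lam (2 ^ (p + 1)))) atTop atTop

/-- `λ` has no resonances: `λ^k ≠ λ_j` whenever `|k| ≥ 2`. -/
def NoResonance {n : ℕ} (lam : Fin n → ℂ) : Prop :=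
  ∀ k : Fin n → ℕ, 2 ≤ ∑ i, k i → ∀ j, ∏ i, lam i ^ k i ≠ lam j

/-- The differential of `f` at the origin is diagonalizable with eigenvalues
`λ_1, …, λ_n`: there is a basis `b` of `ℂ^n` with `df_O (b i) = λ_i b_i`. -/
def DiagonalizableWith {n : ℕ} (f : (Fin n → ℂ) → (Fin n → ℂ)) (lam : Fin n → ℂ) : Prop :=
  ∃ b : Module.Basis (Fin n) ℂ (Fin n → ℂ), ∀ i, fderiv ℂ f 0 (b i) = lam i • b i

/-- The germ `f` is holomorphically linearizable: there is a germ of biholomorphism `φ` fixing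
the origin with `f ∘ φ = φ ∘ df_O` near the origin. -/
def HolLinearizable {n : ℕ} (f : (Fin n → ℂ) → (Fin n → ℂ)) : Prop :=
  ∃ φ : (Fin n → ℂ) → (Fin n → ℂ), AnalyticAt ℂ φ 0 ∧ φ 0 = 0 ∧
    (∃ A : (Fin n → ℂ) ≃L[ℂ] (Fin n → ℂ), HasFDerivAt φ (A : (Fin n → ℂ) →L[ℂ] (Fin n → ℂ)) 0) ∧
    ∀ᶠ z in 𝓝 0, f (φ z) = φ (fderiv ℂ f 0 z)

/-! ## A linearisation theorem with an abstract weight -/

section Majorant

variable {d : ℕ}

/-- basis word -/
def bw {n : ℕ} (s : Fin n → Fin d) : Fin n → (Fin d → ℂ) := fun l => Pi.single (s l) 1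

/-- multi-index of a word -/
def wt {n : ℕ} (s : Fin n → Fin d) : Fin d → ℕ := ∑ l, Pi.single (s l) 1

/-- monomial of a word -/
noncomputable def wordMap {n : ℕ} (s : Fin n → Fin d) :
    ContinuousMultilinearMap ℂ (fun _ : Fin n => (Fin d → ℂ)) ℂ :=
  (ContinuousMultilinearMap.mkPiAlgebra ℂ (Fin n) ℂ).compContinuousLinearMap
    (fun l => ContinuousLinearMap.proj (s l))

theorem wordMap_apply {n : ℕ} (s : Fin n → Fin d) (v : Fin n → (Fin d → ℂ)) :
    wordMap s v = ∏ l, v l (s l) := by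
  simp [wordMap]

theorem wordMap_bw {n : ℕ} (s t : Fin n → Fin d) :
    wordMap s (bw t) = if s = t then 1 else 0 := by
  rw [wordMap_apply]
  split_ifs with h
  · subst h; simp [bw]
  · obtain ⟨l, hl⟩ := Function.ne_iff.1 h
    apply Finset.prod_eq_zero (Finset.mem_univ l)
    simp [bw, hl]

/-- expansion of a multilinear map over the words -/
theorem expand {n : ℕ} {F : Type*} [NormedAddCommGroup F] [NormedSpace ℂ F]
    (M : ContinuousMultilinearMap ℂ (fun _ : Fin n => (Fin d → ℂ)) F) (v : Fin n → (Fin d → ℂ)) :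
    M v = ∑ s : Fin n → Fin d, wordMap s v • M (bw s) := by
  have h1 : v = fun l => ∑ i : Fin d, v l i • (Pi.single i (1 : ℂ) : Fin d → ℂ) := by
    funext l
    funext j
    simp [Finset.sum_apply, Pi.single_apply]
  conv_lhs => rw [h1]
  rw [M.map_sum]
  refine Finset.sum_congr rfl fun s _ => ?_
  rw [M.map_smul_univ, wordMap_apply]
  rfl

variable (lam : Fin d → ℂ)

/-- eigenvalue product along a word -/
noncomputable def lw {n : ℕ} (s : Fin n → Fin d) : ℂ := ∏ l, lam (s l)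

/-- inverse of the homological operator -/
noncomputable def invE {n : ℕ} (M : ContinuousMultilinearMap ℂ (fun _ : Fin n => (Fin d → ℂ)) (Fin d → ℂ)) :
    ContinuousMultilinearMap ℂ (fun _ : Fin n => (Fin d → ℂ)) (Fin d → ℂ) :=
  ∑ s : Fin n → Fin d, (wordMap s).smulRight (fun j => M (bw s) j / (lw lam s - lam j))

theorem invE_apply {n : ℕ}
    (M : ContinuousMultilinearMap ℂ (fun _ : Fin n => (Fin d → ℂ)) (Fin d → ℂ))
    (v : Fin n → (Fin d → ℂ)) :
    invE lam M v = ∑ s : Fin n → Fin d,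
      wordMap s v • (fun j => M (bw s) j / (lw lam s - lam j) : Fin d → ℂ) := by
  simp only [invE, _root_.sum_apply, ContinuousMultilinearMap.smulRight_apply]

theorem invE_bw {n : ℕ}
    (M : ContinuousMultilinearMap ℂ (fun _ : Fin n => (Fin d → ℂ)) (Fin d → ℂ))
    (t : Fin n → Fin d) (j : Fin d) :
    invE lam M (bw t) j = M (bw t) j / (lw lam t - lam j) := by
  rw [invE_apply, Finset.sum_apply, Finset.sum_eq_single t]
  · simp [wordMap_bw]
  · intro s _ hs
    simp [wordMap_bw, hs]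
  · intro h; exact absurd (Finset.mem_univ t) h

/-- the diagonal map -/
noncomputable def diagL : (Fin d → ℂ) →L[ℂ] (Fin d → ℂ) :=
  ContinuousLinearMap.pi fun i => lam i • ContinuousLinearMap.proj i

theorem diagL_apply (z : Fin d → ℂ) (i : Fin d) : diagL lam z i = lam i * z i := by
  simp [diagL]

theorem wordMap_diag {n : ℕ} (s : Fin n → Fin d) (v : Fin n → (Fin d → ℂ)) :
    wordMap s (fun l => diagL lam (v l)) = lw lam s * wordMap s v := by
  simp only [wordMap_apply, diagL_apply, lw, Finset.prod_mul_distrib]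

theorem invE_diag {n : ℕ}
    (M : ContinuousMultilinearMap ℂ (fun _ : Fin n => (Fin d → ℂ)) (Fin d → ℂ))
    (hne : ∀ s : Fin n → Fin d, ∀ j, lw lam s - lam j ≠ 0)
    (v : Fin n → (Fin d → ℂ)) :
    invE lam M (fun l => diagL lam (v l)) = diagL lam (invE lam M v) + M v := by
  rw [invE_apply, invE_apply, expand M v, map_sum, ← Finset.sum_add_distrib]
  refine Finset.sum_congr rfl fun s _ => ?_
  funext j
  rw [wordMap_diag]
  simp only [Pi.smul_apply, Pi.add_apply, diagL_apply, smul_eq_mul]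
  have := hne s j
  field_simp
  ring

/-- The formal linearisation. -/
noncomputable def phi (p : FormalMultilinearSeries ℂ (Fin d → ℂ) (Fin d → ℂ)) :
    FormalMultilinearSeries ℂ (Fin d → ℂ) (Fin d → ℂ)
  | 0 => 0
  | 1 => (continuousMultilinearCurryFin1 ℂ (Fin d → ℂ) (Fin d → ℂ)).symm
      (ContinuousLinearMap.id ℂ (Fin d → ℂ))
  | n + 2 =>
    let q : FormalMultilinearSeries ℂ (Fin d → ℂ) (Fin d → ℂ) :=
      fun k => if k < n + 2 then phi p k else 0
    invE lam ((p.comp q) (n + 2))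

variable (p : FormalMultilinearSeries ℂ (Fin d → ℂ) (Fin d → ℂ))

theorem phi_zero : phi lam p 0 = 0 := by rw [phi]

theorem phi_one : phi lam p 1 = (continuousMultilinearCurryFin1 ℂ (Fin d → ℂ) (Fin d → ℂ)).symm
      (ContinuousLinearMap.id ℂ (Fin d → ℂ)) := by rw [phi]

theorem phi_aux2 (n : ℕ) (v : Fin (n + 2) → (Fin d → ℂ)) :
    ∑ c ∈ {c : Composition (n + 2) | 1 < c.length}.toFinset,
        p c.length (applyComposition (fun k : ℕ => ite (k < n + 2) (phi lam p k) 0) c v) =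
      ∑ c ∈ {c : Composition (n + 2) | 1 < c.length}.toFinset,
        p c.length ((phi lam p).applyComposition c v) := by
  have N : 0 < n + 2 := by simp
  refine sum_congr rfl fun c hc => p.congr rfl fun j hj1 hj2 => ?_
  have : ∀ k, c.blocksFun k < n + 2 := by
    simp only [Set.mem_toFinset (s := {c : Composition (n + 2) | 1 < c.length}),
      Set.mem_ofPred_eq] at hc
    simp [← Composition.ne_single_iff N, Composition.eq_single_iff_length, ne_of_gt hc]
  simp [applyComposition, this]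

set_option backward.isDefEq.respectTransparency false in
theorem phi_coeff (n : ℕ) (hn : 2 ≤ n) :
    phi lam p n = invE lam
          (∑ c ∈ ({c | 1 < Composition.length c}.toFinset : Finset (Composition n)),
            p.compAlongComposition (phi lam p) c) := by
  match n with
  | 0 => exact False.elim (zero_lt_two.not_ge hn)
  | 1 => exact False.elim (one_lt_two.not_ge hn)
  | n + 2 =>
    simp only [phi]
    congr (config := { closePost := false }) 1
    ext v
    have N : 0 < n + 2 := by simp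
    have : ((p 1) fun _ : Fin 1 => 0) = 0 := ContinuousMultilinearMap.map_zero _
    simp [comp_rightInv_aux1 N, this, phi_aux2, -Set.toFinset_ofPred]

/-- The formal conjugacy. -/
theorem phi_conj (h0 : p 0 = 0)
    (h1 : p 1 = (continuousMultilinearCurryFin1 ℂ (Fin d → ℂ) (Fin d → ℂ)).symm (diagL lam))
    (hne : ∀ n, 2 ≤ n → ∀ s : Fin n → Fin d, ∀ j, lw lam s - lam j ≠ 0) :
    p.comp (phi lam p) = (phi lam p).compContinuousLinearMap (diagL lam) := by
  ext1 n
  match n with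
  | 0 =>
    ext v : 1
    rw [comp_coeff_zero', h0]
    simp [FormalMultilinearSeries.compContinuousLinearMap_apply, phi_zero]
  | 1 =>
    ext v : 1
    rw [comp_coeff_one, h1, phi_one]
    simp [FormalMultilinearSeries.compContinuousLinearMap_apply, phi_one]
  | n + 2 =>
    have N : 0 < n + 2 := by simp
    ext v : 1
    rw [comp_rightInv_aux1 N, FormalMultilinearSeries.compContinuousLinearMap_apply]
    have e2 := phi_coeff lam p (n + 2) (by omega)
    have e3 : (⇑(diagL lam) ∘ v) = fun l => diagL lam (v l) := rfl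
    rw [e3]
    conv_rhs => rw [e2]
    rw [invE_diag lam _ (hne (n + 2) (by omega)) v, ← e2, h1]
    simp [add_comm]


theorem wt_comp {n : ℕ} (c : Composition n) (s : Fin n → Fin d) :
    wt s = ∑ i : Fin c.length, wt (s ∘ c.embedding i) := by
  unfold wt
  rw [← c.blocksFinEquiv.sum_comp, Fintype.sum_sigma]
  rfl

theorem sum_wt {n : ℕ} (s : Fin n → Fin d) : ∑ i, wt s i = n := by
  unfold wt
  simp only [Finset.sum_apply]
  rw [Finset.sum_comm]
  simp

theorem wt_ne_zero {n : ℕ} (hn : 0 < n) (s : Fin n → Fin d) : wt s ≠ 0 := by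
  intro h
  have := sum_wt s
  rw [h] at this
  simp at this
  omega

theorem lw_eq {n : ℕ} (s : Fin n → Fin d) : lw lam s = ∏ i, lam i ^ (wt s i) := by
  unfold lw wt
  simp only [Finset.sum_apply, ← Finset.prod_pow_eq_pow_sum]
  rw [Finset.prod_comm]
  refine Finset.prod_congr rfl fun l _ => ?_
  rw [Finset.prod_eq_single (s l)]
  · simp
  · intro i _ hi
    simp [hi]
  · intro h; exact absurd (Finset.mem_univ _) h

theorem sum_words {n : ℕ} (c : Composition n)
    (g : (i : Fin c.length) → (Fin (c.blocksFun i) → Fin d) → ℝ) :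
    ∑ s : Fin n → Fin d, ∏ i, g i (s ∘ c.embedding i) = ∏ i, ∑ t, g i t := by
  rw [Finset.prod_univ_sum]
  simp only [Fintype.piFinset_univ]
  let e : (Fin n → Fin d) ≃ ((i : Fin c.length) → (Fin (c.blocksFun i) → Fin d)) :=
    (Equiv.arrowCongr c.blocksFinEquiv.symm (Equiv.refl _)).trans
      (Equiv.piCurry (fun _ _ => Fin d))
  rw [← e.sum_comp]
  rfl

variable (D : (Fin d → ℕ) → ℝ)

theorem prod_D (hD0 : ∀ k, 0 < D k) 
    (hD1 : ∀ k k', k ≠ 0 → k' ≠ 0 → D k * D k' ≤ D (k + k')) (m : ℕ)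
    (K : Fin (m + 1) → (Fin d → ℕ)) (hK : ∀ i, K i ≠ 0) :
    ∏ i, D (K i) ≤ D (∑ i, K i) := by
  induction m with
  | zero => simp
  | succ m ih =>
    rw [Fin.prod_univ_succ, Fin.sum_univ_succ]
    have h1 := ih (fun i => K i.succ) (fun i => hK _)
    have h2 : ∑ i : Fin (m + 1), K i.succ ≠ 0 := by
      intro h
      have h3 := congrArg (fun v : Fin d → ℕ => v) h
      apply hK (Fin.succ 0)
      have h4 : K (Fin.succ 0) ≤ ∑ i : Fin (m + 1), K i.succ :=
        Finset.single_le_sum (f := fun i : Fin (m + 1) => K i.succ)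
          (fun i _ => fun j => Nat.zero_le _) (Finset.mem_univ 0)
      rw [h] at h4
      exact le_antisymm h4 (fun j => Nat.zero_le _)
    exact (mul_le_mul_of_nonneg_left h1 (hD0 _).le).trans (hD1 _ _ (hK 0) h2)

theorem prod_D' (hD0 : ∀ k, 0 < D k) 
    (hD1 : ∀ k k', k ≠ 0 → k' ≠ 0 → D k * D k' ≤ D (k + k'))
    (hD2 : ∀ k k', k ≠ 0 → k' ≠ 0 → ∀ j,
      D k * D k' ≤ D (k + k') * ‖∏ i, lam i ^ ((k + k') i) - lam j‖) (m : ℕ) (hm : 1 < m)
    (K : Fin m → (Fin d → ℕ)) (hK : ∀ i, K i ≠ 0) (j : Fin d) :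
    ∏ i, D (K i) ≤ D (∑ i, K i) * ‖∏ i, lam i ^ ((∑ i, K i) i) - lam j‖ := by
  obtain ⟨m, rfl⟩ : ∃ m', m = m' + 2 := ⟨m - 2, by omega⟩
  rw [Fin.prod_univ_succ, Fin.sum_univ_succ]
  have h1 := prod_D D hD0 hD1 m (fun i => K i.succ) (fun i => hK _)
  have h2 : ∑ i : Fin (m + 1), K i.succ ≠ 0 := by
    intro h
    apply hK (Fin.succ 0)
    have h4 : K (Fin.succ 0) ≤ ∑ i : Fin (m + 1), K i.succ :=
      Finset.single_le_sum (f := fun i : Fin (m + 1) => K i.succ)
        (fun i _ => fun j => Nat.zero_le _) (Finset.mem_univ 0)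
    rw [h] at h4
    exact le_antisymm h4 (fun j => Nat.zero_le _)
  exact (mul_le_mul_of_nonneg_left h1 (hD0 _).le).trans (hD2 _ _ (hK 0) h2 j)


/-- weighted size of the `n`-th coefficient -/
noncomputable def aa (q : FormalMultilinearSeries ℂ (Fin d → ℂ) (Fin d → ℂ)) (n : ℕ) : ℝ :=
  ∑ s : Fin n → Fin d, ‖q n (bw s)‖ / D (wt s)

theorem aa_nonneg (hD0 : ∀ k, 0 < D k)
    (q : FormalMultilinearSeries ℂ (Fin d → ℂ) (Fin d → ℂ)) (n : ℕ) : 0 ≤ aa D q n :=
  Finset.sum_nonneg fun _ _ => div_nonneg (norm_nonneg _) (hD0 _).le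

theorem aa_rec (hD0 : ∀ k, 0 < D k) 
    (hD1 : ∀ k k', k ≠ 0 → k' ≠ 0 → D k * D k' ≤ D (k + k'))
    (hD2 : ∀ k k', k ≠ 0 → k' ≠ 0 → ∀ j,
      D k * D k' ≤ D (k + k') * ‖∏ i, lam i ^ ((k + k') i) - lam j‖)
    (hne : ∀ n, 2 ≤ n → ∀ s : Fin n → Fin d, ∀ j, lw lam s - lam j ≠ 0)
    (C r : ℝ) (hp : ∀ n, ‖p n‖ ≤ C * r ^ n) (n : ℕ) (hn : 2 ≤ n) :
    aa D (phi lam p) n ≤ ∑ c ∈ ({c | 1 < Composition.length c}.toFinset : Finset (Composition n)),
      (C * r ^ c.length) * ∏ i, aa D (phi lam p) (c.blocksFun i) := by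
  have key : ∀ s : Fin n → Fin d, ‖phi lam p n (bw s)‖ / D (wt s) ≤
      ∑ c ∈ ({c | 1 < Composition.length c}.toFinset : Finset (Composition n)),
        (C * r ^ c.length) * ∏ i : Fin c.length,
          (‖phi lam p (c.blocksFun i) (bw (s ∘ c.embedding i))‖ / D (wt (s ∘ c.embedding i))) := by
    intro s
    have hCr : ∀ n, 0 ≤ C * r ^ n := fun n => (norm_nonneg _).trans (hp n)
    have hnonneg : 0 ≤ ∑ c ∈ ({c | 1 < Composition.length c}.toFinset : Finset (Composition n)),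
        (C * r ^ c.length) * ∏ i : Fin c.length,
          (‖phi lam p (c.blocksFun i) (bw (s ∘ c.embedding i))‖ / D (wt (s ∘ c.embedding i))) :=
      Finset.sum_nonneg fun c _ => mul_nonneg (hCr _)
        (Finset.prod_nonneg fun i _ => div_nonneg (norm_nonneg _) (hD0 _).le)
    rw [div_le_iff₀ (hD0 _)]
    rw [pi_norm_le_iff_of_nonneg (mul_nonneg hnonneg (hD0 _).le)]
    intro j
    rw [phi_coeff lam p n hn, invE_bw, norm_div, div_le_iff₀ (norm_pos_iff.2 (hne n hn s j))]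
    refine (norm_le_pi_norm _ j).trans ?_
    rw [_root_.sum_apply]
    refine (norm_sum_le _ _).trans ?_
    rw [Finset.sum_mul, Finset.sum_mul]
    refine Finset.sum_le_sum fun c hc => ?_
    have hc' : 1 < c.length := by simpa using hc
    rw [compAlongComposition_apply]
    refine ((p c.length).le_opNorm _).trans ?_
    have e1 : ∏ i, ‖(phi lam p).applyComposition c (bw s) i‖ =
        (∏ i : Fin c.length,
          (‖phi lam p (c.blocksFun i) (bw (s ∘ c.embedding i))‖ / D (wt (s ∘ c.embedding i)))) *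
          ∏ i : Fin c.length, D (wt (s ∘ c.embedding i)) := by
      rw [← Finset.prod_mul_distrib]
      refine Finset.prod_congr rfl fun i _ => ?_
      rw [div_mul_cancel₀ _ (hD0 _).ne']
      rfl
    rw [e1]
    have e2 : ∏ i : Fin c.length, D (wt (s ∘ c.embedding i)) ≤ D (wt s) * ‖lw lam s - lam j‖ := by
      rw [lw_eq lam s, wt_comp c s]
      exact prod_D' lam D hD0 hD1 hD2 c.length hc' (fun i => wt (s ∘ c.embedding i))
        (fun i => wt_ne_zero (c.one_le_blocksFun i) _) j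
    have e3 : 0 ≤ ∏ i : Fin c.length,
          (‖phi lam p (c.blocksFun i) (bw (s ∘ c.embedding i))‖ / D (wt (s ∘ c.embedding i))) :=
      Finset.prod_nonneg fun i _ => div_nonneg (norm_nonneg _) (hD0 _).le
    calc ‖p c.length‖ * ((∏ i : Fin c.length,
          (‖phi lam p (c.blocksFun i) (bw (s ∘ c.embedding i))‖ / D (wt (s ∘ c.embedding i)))) *
          ∏ i : Fin c.length, D (wt (s ∘ c.embedding i)))
        ≤ (C * r ^ c.length) * ((∏ i : Fin c.length,
          (‖phi lam p (c.blocksFun i) (bw (s ∘ c.embedding i))‖ / D (wt (s ∘ c.embedding i)))) *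
          (D (wt s) * ‖lw lam s - lam j‖)) := by
          refine mul_le_mul (hp _) (mul_le_mul_of_nonneg_left e2 e3) (mul_nonneg e3 ?_) (hCr _)
          exact Finset.prod_nonneg fun i _ => (hD0 _).le
      _ = _ := by ring
  calc aa D (phi lam p) n ≤ ∑ s : Fin n → Fin d,
      ∑ c ∈ ({c | 1 < Composition.length c}.toFinset : Finset (Composition n)),
        (C * r ^ c.length) * ∏ i : Fin c.length,
          (‖phi lam p (c.blocksFun i) (bw (s ∘ c.embedding i))‖ / D (wt (s ∘ c.embedding i))) :=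
        Finset.sum_le_sum fun s _ => key s
    _ = _ := by
      rw [Finset.sum_comm]
      refine Finset.sum_congr rfl fun c _ => ?_
      rw [← Finset.mul_sum]
      congr 1
      exact sum_words c (fun i t => ‖phi lam p (c.blocksFun i) (bw t)‖ / D (wt t))

theorem aa_one (hD0 : ∀ k, 0 < D k) :
    0 ≤ aa D (phi lam p) 1 := aa_nonneg D hD0 _ _

theorem norm_le_aa (hD0 : ∀ k, 0 < D k) (B : ℝ) (hB : ∀ k, D k ≤ B ^ (∑ i, k i))
    (q : FormalMultilinearSeries ℂ (Fin d → ℂ) (Fin d → ℂ)) (n : ℕ) :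
    ‖q n‖ ≤ B ^ n * aa D q n := by
  have hBn : 0 ≤ B ^ n * aa D q n := by
    by_cases h : Nonempty (Fin n → Fin d)
    · obtain ⟨s⟩ := h
      have h1 := hB (wt s)
      rw [sum_wt] at h1
      exact mul_nonneg ((hD0 _).le.trans h1) (aa_nonneg D hD0 _ _)
    · have : aa D q n = 0 := by
        unfold aa
        rw [not_nonempty_iff] at h
        exact Finset.sum_of_isEmpty _
      rw [this, mul_zero]
  refine ContinuousMultilinearMap.opNorm_le_bound hBn fun v => ?_
  rw [expand (q n) v]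
  refine (norm_sum_le _ _).trans ?_
  unfold aa
  rw [Finset.mul_sum, Finset.sum_mul]
  refine Finset.sum_le_sum fun s _ => ?_
  rw [norm_smul, wordMap_apply, norm_prod]
  have h1 : ∏ l, ‖v l (s l)‖ ≤ ∏ l, ‖v l‖ :=
    Finset.prod_le_prod (fun _ _ => norm_nonneg _) fun l _ => norm_le_pi_norm _ _
  have h2 : ‖q n (bw s)‖ ≤ B ^ n * (‖q n (bw s)‖ / D (wt s)) := by
    have h3 := hB (wt s)
    rw [sum_wt] at h3
    rw [← mul_div_assoc, le_div_iff₀ (hD0 _), mul_comm]
    exact mul_le_mul_of_nonneg_right h3 (norm_nonneg _)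
  calc (∏ l, ‖v l (s l)‖) * ‖q n (bw s)‖ ≤ (∏ l, ‖v l‖) * (B ^ n * (‖q n (bw s)‖ / D (wt s))) := by
        gcongr
    _ = _ := by ring


theorem radius_phi_pos (hD0 : ∀ k, 0 < D k) (B : ℝ) (hB0 : 0 < B) (hB : ∀ k, D k ≤ B ^ (∑ i, k i))
    (hD1 : ∀ k k', k ≠ 0 → k' ≠ 0 → D k * D k' ≤ D (k + k'))
    (hD2 : ∀ k k', k ≠ 0 → k' ≠ 0 → ∀ j,
      D k * D k' ≤ D (k + k') * ‖∏ i, lam i ^ ((k + k') i) - lam j‖)
    (hne : ∀ n, 2 ≤ n → ∀ s : Fin n → Fin d, ∀ j, lw lam s - lam j ≠ 0)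
    (hp : 0 < p.radius) : 0 < (phi lam p).radius := by
  obtain ⟨C, r, Cpos, rpos, ple⟩ :
    ∃ (C r : _) (_ : 0 < C) (_ : 0 < r), ∀ n : ℕ, ‖p n‖ ≤ C * r ^ n :=
    le_mul_pow_of_radius_pos p hp
  set I : ℝ := aa D (phi lam p) 1 with hI
  have hI0 : 0 ≤ I := aa_nonneg D hD0 _ _
  obtain ⟨a, apos, ha1, ha2⟩ :
    ∃ (a : ℝ) (apos : 0 < a),
      2 * C * r ^ 2 * (I + 1) ^ 2 * a ≤ 1 ∧ r * (I + 1) * a ≤ 1 / 2 := by
    have h1 : Tendsto (fun a => 2 * C * r ^ 2 * (I + 1) ^ 2 * a) (𝓝 0)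
        (𝓝 (2 * C * r ^ 2 * (I + 1) ^ 2 * 0)) :=
      tendsto_const_nhds.mul tendsto_id
    have A : ∀ᶠ a in 𝓝 0, 2 * C * r ^ 2 * (I + 1) ^ 2 * a < 1 := by
      apply (tendsto_order.1 h1).2; simp [zero_lt_one]
    have h2 : Tendsto (fun a => r * (I + 1) * a) (𝓝 0) (𝓝 (r * (I + 1) * 0)) :=
      tendsto_const_nhds.mul tendsto_id
    have B : ∀ᶠ a in 𝓝 0, r * (I + 1) * a < 1 / 2 := by
      apply (tendsto_order.1 h2).2; simp
    have C : ∀ᶠ a in 𝓝[>] (0 : ℝ), (0 : ℝ) < a := by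
      filter_upwards [self_mem_nhdsWithin] with _ ha using ha
    rcases (C.and ((A.and B).filter_mono inf_le_left)).exists with ⟨a, ha⟩
    exact ⟨a, ha.1, ha.2.1.le, ha.2.2.le⟩
  let S : ℕ → ℝ := fun n => ∑ k ∈ Ico 1 n, a ^ k * aa D (phi lam p) k
  have Snonneg : ∀ n, 0 ≤ S n := fun n => Finset.sum_nonneg fun k _ =>
    mul_nonneg (pow_nonneg apos.le _) (aa_nonneg D hD0 _ _)
  have step : ∀ n, 2 ≤ n + 1 → S (n + 1) ≤ I * a + C * ∑ k ∈ Ico 2 (n + 1), (r * S n) ^ k := by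
    intro n hn
    calc S (n + 1) = a * I + ∑ k ∈ Ico 2 (n + 1), a ^ k * aa D (phi lam p) k := by
          simp only [S, hI, pow_one,
            show Ico (1 : ℕ) 2 = {1} from Nat.Ico_succ_singleton 1,
            sum_singleton, ← sum_Ico_consecutive _ one_le_two hn]
      _ ≤ a * I + ∑ k ∈ Ico 2 (n + 1), a ^ k *
            ∑ c ∈ ({c | 1 < Composition.length c}.toFinset : Finset (Composition k)),
              (C * r ^ c.length) * ∏ j, aa D (phi lam p) (c.blocksFun j) := by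
          gcongr with k hk
          exact aa_rec lam p D hD0 hD1 hD2 hne C r ple k (mem_Ico.1 hk).1
      _ = I * a + C * ∑ k ∈ Ico 2 (n + 1), a ^ k *
            ∑ c ∈ ({c | 1 < Composition.length c}.toFinset : Finset (Composition k)),
              r ^ c.length * ∏ j, aa D (phi lam p) (c.blocksFun j) := by
          simp_rw [mul_assoc C, ← mul_sum, ← mul_assoc, mul_comm _ C, mul_assoc, ← mul_sum]
          ring
      _ ≤ I * a + C * ∑ k ∈ Ico 2 (n + 1), (r * S n) ^ k := by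
          simp_rw [mul_pow]
          have := radius_right_inv_pos_of_radius_pos_aux1 n (fun k => aa D (phi lam p) k)
            (fun k => aa_nonneg D hD0 _ _) rpos.le apos.le
          gcongr
  have IRec : ∀ n, 1 ≤ n → S n ≤ (I + 1) * a := by
    apply Nat.le_induction
    · simp only [S]
      rw [Ico_eq_empty_of_le (le_refl 1), sum_empty]
      positivity
    · intro n one_le_n hn
      have In : 2 ≤ n + 1 := by lia
      have rSn : r * S n ≤ 1 / 2 :=
        calc
          r * S n ≤ r * ((I + 1) * a) := by gcongr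
          _ ≤ 1 / 2 := by rwa [← mul_assoc]
      have hrS : 0 ≤ r * S n := mul_nonneg rpos.le (Snonneg n)
      calc
        S (n + 1) ≤ I * a + C * ∑ k ∈ Ico 2 (n + 1), (r * S n) ^ k := step n In
        _ = I * a + C * (((r * S n) ^ 2 - (r * S n) ^ (n + 1)) / (1 - r * S n)) := by
          rw [geom_sum_Ico' _ In]; exact ne_of_lt (rSn.trans_lt (by norm_num))
        _ ≤ I * a + C * ((r * S n) ^ 2 / (1 / 2)) := by
          gcongr
          · simp only [sub_le_self_iff]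
            positivity
          · linarith only [rSn]
        _ = I * a + 2 * C * (r * S n) ^ 2 := by ring
        _ ≤ I * a + 2 * C * (r * ((I + 1) * a)) ^ 2 := by gcongr
        _ = (I + 2 * C * r ^ 2 * (I + 1) ^ 2 * a) * a := by ring
        _ ≤ (I + 1) * a := by gcongr
  have hab : 0 < a / B := div_pos apos hB0
  let a' : NNReal := ⟨a / B, hab.le⟩
  suffices H : (a' : ENNReal) ≤ (phi lam p).radius by
    apply lt_of_lt_of_le _ H
    have : (0 : NNReal) < a' := hab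
    simpa only [ENNReal.coe_pos]
  apply le_radius_of_eventually_le _ ((I + 1) * a)
  filter_upwards [Ici_mem_atTop 1] with n (hn : 1 ≤ n)
  calc
    ‖phi lam p n‖ * (a' : ℝ) ^ n ≤ (B ^ n * aa D (phi lam p) n) * (a / B) ^ n := by
      have := norm_le_aa D hD0 B hB (phi lam p) n
      exact mul_le_mul_of_nonneg_right this (pow_nonneg hab.le _)
    _ = a ^ n * aa D (phi lam p) n := by
      rw [div_pow]; field_simp
    _ ≤ ∑ k ∈ Ico 1 (n + 1), a ^ k * aa D (phi lam p) k :=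
      (haveI : ∀ k ∈ Ico 1 (n + 1), 0 ≤ a ^ k * aa D (phi lam p) k := fun k _ =>
        mul_nonneg (pow_nonneg apos.le _) (aa_nonneg D hD0 _ _)
      single_le_sum this (by simp [hn]))
    _ ≤ (I + 1) * a := IRec (n + 1) (by simp)

/-- Linearisation theorem with an abstract weight. -/
theorem linearise (hD0 : ∀ k, 0 < D k) (B : ℝ) (hB0 : 0 < B) (hB : ∀ k, D k ≤ B ^ (∑ i, k i))
    (hD1 : ∀ k k', k ≠ 0 → k' ≠ 0 → D k * D k' ≤ D (k + k'))
    (hD2 : ∀ k k', k ≠ 0 → k' ≠ 0 → ∀ j,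
      D k * D k' ≤ D (k + k') * ‖∏ i, lam i ^ ((k + k') i) - lam j‖)
    (f : (Fin d → ℂ) → (Fin d → ℂ)) (hf : AnalyticAt ℂ f 0) (hf0 : f 0 = 0)
    (hfd : HasFDerivAt f (diagL lam) 0) :
    ∃ φ : (Fin d → ℂ) → (Fin d → ℂ), AnalyticAt ℂ φ 0 ∧ φ 0 = 0 ∧
      HasFDerivAt φ (ContinuousLinearMap.id ℂ (Fin d → ℂ)) 0 ∧
      ∀ᶠ z in 𝓝 0, f (φ z) = φ (diagL lam z) := by
  obtain ⟨p, hp⟩ := hf
  have hne : ∀ n, 2 ≤ n → ∀ s : Fin n → Fin d, ∀ j, lw lam s - lam j ≠ 0 := by
    intro n hn s j h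
    obtain ⟨m, rfl⟩ : ∃ m, n = m + 2 := ⟨n - 2, by omega⟩
    -- split the word into its first letter and the rest
    have h1 : wt s = Pi.single (s 0) 1 + wt (fun l : Fin (m + 1) => s l.succ) := by
      unfold wt
      rw [Fin.sum_univ_succ]
    have h2 : (Pi.single (s 0) 1 : Fin d → ℕ) ≠ 0 := by
      intro h; have := congrFun h (s 0); simp at this
    have h3 := wt_ne_zero (Nat.succ_pos m) (fun l : Fin (m + 1) => s l.succ)
    have h4 := hD2 _ _ h2 h3 j
    rw [← h1, ← lw_eq, h, norm_zero, mul_zero] at h4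
    exact absurd h4 (not_le.2 (mul_pos (hD0 _) (hD0 _)))
  have hrad := radius_phi_pos lam p D hD0 B hB0 hB hD1 hD2 hne
    (lt_of_lt_of_le hp.choose_spec.r_pos hp.choose_spec.r_le)
  have hφ := (phi lam p).hasFPowerSeriesOnBall hrad
  have hφ' : HasFPowerSeriesAt (phi lam p).sum (phi lam p) 0 := hφ.hasFPowerSeriesAt
  have hp0 : p 0 = 0 := by
    ext v : 1
    rw [hp.coeff_zero v, hf0]; rfl
  have hp1 : p 1 = (continuousMultilinearCurryFin1 ℂ (Fin d → ℂ) (Fin d → ℂ)).symm (diagL lam) := by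
    have h := hp.hasFDerivAt.unique hfd
    rw [← h]
    simp
  have hφ0 : (phi lam p).sum 0 = 0 := by
    have h := hφ'.coeff_zero (fun _ => 0)
    rw [phi_zero] at h
    exact h.symm
  refine ⟨(phi lam p).sum, hφ'.analyticAt, hφ0, ?_, ?_⟩
  · have h := hφ'.hasFDerivAt
    rw [phi_one] at h
    simpa using h
  · have h1 : HasFPowerSeriesAt (f ∘ (phi lam p).sum) (p.comp (phi lam p)) 0 := by
      apply HasFPowerSeriesAt.comp _ hφ'
      rw [hφ0]; exact hp
    have h2 : HasFPowerSeriesAt ((phi lam p).sum ∘ (diagL lam))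
        ((phi lam p).compContinuousLinearMap (diagL lam)) 0 := by
      apply HasFPowerSeriesAt.compContinuousLinearMap
      rw [map_zero]; exact hφ'
    rw [phi_conj lam p hp0 hp1 hne] at h1
    have h3 := h1.eventually_hasSum
    have h4 := h2.eventually_hasSum
    filter_upwards [h3, h4] with z hz1 hz2
    rw [zero_add] at hz1 hz2
    exact hz1.unique hz2

end Majorant

/-! ## Construction of the weight -/

section Weight

variable {d : ℕ}

/-- total degree in the contracting variables -/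
def gr (i0 : Fin d) (k : Fin d → ℕ) : ℕ := ∑ i ∈ Finset.univ.erase i0, k i

theorem gr_add (i0 : Fin d) (k k' : Fin d → ℕ) : gr i0 (k + k') = gr i0 k + gr i0 k' := by
  simp [gr, Finset.sum_add_distrib]

theorem sum_eq_gr (i0 : Fin d) (k : Fin d → ℕ) : ∑ i, k i = k i0 + gr i0 k := by
  rw [gr, Finset.add_sum_erase _ _ (Finset.mem_univ i0)]

/-- the logarithm of the weight -/
noncomputable def TT (i0 : Fin d) (K J : ℕ → ℝ) (A C : ℝ) (k : Fin d → ℕ) : ℝ :=
  if gr i0 k = 0 then A * ((k i0 : ℝ) - 1) + K (k i0)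
  else if gr i0 k = 1 then A * (k i0 : ℝ) + C * (k i0 : ℝ) + J (k i0)
  else A * ((k i0 : ℝ) + (gr i0 k : ℝ) - 1) + 2 * C * ((k i0 : ℝ) + (gr i0 k : ℝ))

theorem TT_le (i0 : Fin d) (K J : ℕ → ℝ) (A C : ℝ) (hC : 0 ≤ C)
    (hK : ∀ c : ℕ, K c ≤ C * c) (hJ : ∀ c : ℕ, J c ≤ C * (c + 1)) (k : Fin d → ℕ) :
    TT i0 K J A C k ≤ A * ((k i0 : ℝ) + (gr i0 k : ℝ) - 1) +
      2 * C * ((k i0 : ℝ) + (gr i0 k : ℝ)) := by
  have hc : (0 : ℝ) ≤ (k i0 : ℝ) := Nat.cast_nonneg _
  have hCc := mul_nonneg hC hc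
  unfold TT
  split_ifs with h1 h2
  · rw [h1]
    have := hK (k i0)
    push_cast
    nlinarith
  · rw [h2]
    have := hJ (k i0)
    push_cast
    nlinarith
  · exact le_refl _

/-- key inequality for the weight -/
theorem TT_key (i0 : Fin d) (K J : ℕ → ℝ) (A C : ℝ) (hC : 0 ≤ C)
    (hK : ∀ c : ℕ, K c ≤ C * c) (hJ : ∀ c : ℕ, J c ≤ C * (c + 1)) (hJm : Monotone J)
    (k k' : Fin d → ℕ) (hk : k ≠ 0) (hk' : k' ≠ 0) (x : ℝ)
    (hx0 : gr i0 (k + k') = 0 → 1 ≤ k i0 → 1 ≤ k' i0 →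
      K (k i0) + K (k' i0) + x ≤ A + K (k i0 + k' i0))
    (hx1 : gr i0 (k + k') = 1 → 1 ≤ k i0 + k' i0 → J (k i0 + k' i0 - 1) + x ≤ A + J (k i0 + k' i0))
    (hx2 : 2 ≤ gr i0 (k + k') → x ≤ A) :
    TT i0 K J A C k + TT i0 K J A C k' + x ≤ TT i0 K J A C (k + k') := by
  have hne : ∀ k : Fin d → ℕ, k ≠ 0 → gr i0 k = 0 → 1 ≤ k i0 := by
    intro k hk hg
    by_contra hcon
    apply hk
    funext i
    by_cases hi : i = i0
    · subst hi; simpa using hcon
    · exact (Finset.sum_eq_zero_iff.1 hg) i (Finset.mem_erase.2 ⟨hi, Finset.mem_univ i⟩)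
  have hadd := gr_add i0 k k'
  have haddc : (k + k') i0 = k i0 + k' i0 := rfl
  -- asymmetric case
  have asym : ∀ k k' : Fin d → ℕ, k ≠ 0 → gr i0 k = 0 → gr i0 k' = 1 →
      (1 ≤ k i0 + k' i0 → J (k i0 + k' i0 - 1) + x ≤ A + J (k i0 + k' i0)) →
      TT i0 K J A C k + TT i0 K J A C k' + x ≤ TT i0 K J A C (k + k') := by
    intro k k' hk hg hg' hx
    have h1 := hne k hk hg
    have hx' := hx (by omega)
    have hJ' : J (k' i0) ≤ J (k i0 + k' i0 - 1) := hJm (by omega)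
    have e1 : gr i0 (k + k') = 1 := by rw [gr_add, hg, hg']
    have e2 : (k + k') i0 = k i0 + k' i0 := rfl
    unfold TT
    rw [if_pos hg, if_neg (by rw [hg']; norm_num), if_pos hg', if_neg (by rw [e1]; norm_num),
      if_pos e1, e2]
    have hKk := hK (k i0)
    push_cast
    nlinarith
  rcases Nat.lt_or_ge (gr i0 (k + k')) 2 with hlt | hge
  · have hcases : (gr i0 k = 0 ∧ gr i0 k' = 0) ∨ (gr i0 k = 0 ∧ gr i0 k' = 1) ∨
        (gr i0 k = 1 ∧ gr i0 k' = 0) := by omega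
    rcases hcases with ⟨h1, h2⟩ | ⟨h1, h2⟩ | ⟨h1, h2⟩
    · have e1 : gr i0 (k + k') = 0 := by omega
      have hx' := hx0 e1 (hne k hk h1) (hne k' hk' h2)
      unfold TT
      rw [if_pos h1, if_pos h2, if_pos e1, haddc]
      push_cast
      nlinarith
    · have e1 : gr i0 (k + k') = 1 := by omega
      exact asym k k' hk h1 h2 (hx1 e1)
    · have e1 : gr i0 (k + k') = 1 := by omega
      have h := asym k' k hk' h2 h1 (by rw [add_comm (k' i0)]; exact hx1 e1)
      rw [add_comm k' k] at h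
      linarith
  · have hx' := hx2 hge
    have t1 := TT_le i0 K J A C hC hK hJ k
    have t2 := TT_le i0 K J A C hC hK hJ k'
    have e3 : TT i0 K J A C (k + k') = A * (((k + k') i0 : ℝ) + (gr i0 (k + k') : ℝ) - 1) +
      2 * C * (((k + k') i0 : ℝ) + (gr i0 (k + k') : ℝ)) := by
      unfold TT
      rw [if_neg (by omega), if_neg (by omega)]
    rw [e3, hadd, haddc]
    push_cast
    nlinarith

theorem prod_eq (i0 : Fin d) (lam : Fin d → ℂ) (k : Fin d → ℕ) :
    ∏ i, lam i ^ k i = lam i0 ^ k i0 * ∏ i ∈ Finset.univ.erase i0, lam i ^ k i := by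
  exact (Finset.mul_prod_erase Finset.univ (fun i => lam i ^ k i) (Finset.mem_univ i0)).symm

theorem norm_prod_erase (i0 : Fin d) (lam : Fin d → ℂ) (h1 : ∀ i, i ≠ i0 → ‖lam i‖ = 1 / 2)
    (k : Fin d → ℕ) : ‖∏ i ∈ Finset.univ.erase i0, lam i ^ k i‖ = (1 / 2) ^ (gr i0 k) := by
  rw [norm_prod, gr, ← Finset.prod_pow_eq_pow_sum]
  refine Finset.prod_congr rfl fun i hi => ?_
  rw [norm_pow, h1 i (Finset.ne_of_mem_erase hi)]

theorem norm_prod_all (i0 : Fin d) (lam : Fin d → ℂ) (h0 : ‖lam i0‖ = 1)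
    (h1 : ∀ i, i ≠ i0 → ‖lam i‖ = 1 / 2)
    (k : Fin d → ℕ) : ‖∏ i, lam i ^ k i‖ = (1 / 2) ^ (gr i0 k) := by
  rw [prod_eq i0, norm_mul, norm_prod_erase i0 lam h1, norm_pow, h0, one_pow, one_mul]

theorem gr_one (i0 : Fin d) (lam : Fin d → ℂ) (k : Fin d → ℕ) (hg : gr i0 k = 1) :
    ∃ i, i ≠ i0 ∧ ∏ i, lam i ^ k i = lam i * lam i0 ^ k i0 := by
  have hne : ∃ i ∈ Finset.univ.erase i0, k i ≠ 0 := by
    by_contra hcon
    push Not at hcon
    have : gr i0 k = 0 := Finset.sum_eq_zero hcon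
    omega
  obtain ⟨i, hi, hki⟩ := hne
  have hi0 := Finset.ne_of_mem_erase hi
  have hsum : k i + ∑ j ∈ (Finset.univ.erase i0).erase i, k j = 1 := by
    rw [Finset.add_sum_erase _ _ hi]; exact hg
  have hki1 : k i = 1 := by omega
  have hz : ∑ j ∈ (Finset.univ.erase i0).erase i, k j = 0 := by omega
  refine ⟨i, hi0, ?_⟩
  rw [prod_eq i0, ← Finset.mul_prod_erase _ _ hi, hki1, pow_one]
  have : ∏ j ∈ (Finset.univ.erase i0).erase i, lam j ^ k j = 1 := by
    refine Finset.prod_eq_one fun j hj => ?_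
    rw [(Finset.sum_eq_zero_iff.1 hz) j hj, pow_zero]
  rw [this]; ring

theorem exists_weight (i0 : Fin d) (lam : Fin d → ℂ) (h0 : ‖lam i0‖ = 1)
    (h1 : ∀ i, i ≠ i0 → ‖lam i‖ = 1 / 2)
    (K J : ℕ → ℝ) (A C : ℝ) (hA : Real.log 4 ≤ A) (hC : 0 ≤ C)
    (hK : ∀ c : ℕ, K c ≤ C * c) (hJ : ∀ c : ℕ, J c ≤ C * (c + 1)) (hJm : Monotone J)
    (hK0 : ∀ a b : ℕ, 1 ≤ a → 1 ≤ b → K a + K b ≤ K (a + b))
    (hKs : ∀ a b : ℕ, 1 ≤ a → 1 ≤ b →
      K a + K b - Real.log ‖lam i0 ^ (a + b) - lam i0‖ ≤ A + K (a + b))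
    (hJs : ∀ c : ℕ, 1 ≤ c → ∀ i j, i ≠ i0 → j ≠ i0 →
      J (c - 1) - Real.log ‖lam i * lam i0 ^ c - lam j‖ ≤ A + J c)
    (hn0 : ∀ c : ℕ, 2 ≤ c → lam i0 ^ c ≠ lam i0)
    (hn1 : ∀ c : ℕ, 1 ≤ c → ∀ i j, i ≠ i0 → j ≠ i0 → lam i * lam i0 ^ c ≠ lam j) :
    ∃ (D : (Fin d → ℕ) → ℝ) (B : ℝ), (∀ k, 0 < D k) ∧ 0 < B ∧ (∀ k, D k ≤ B ^ (∑ i, k i)) ∧
      (∀ k k', k ≠ 0 → k' ≠ 0 → D k * D k' ≤ D (k + k')) ∧
      (∀ k k', k ≠ 0 → k' ≠ 0 → ∀ j,
        D k * D k' ≤ D (k + k') * ‖∏ i, lam i ^ ((k + k') i) - lam j‖) := by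
  have hA0 : 0 ≤ A := le_trans (Real.log_nonneg (by norm_num)) hA
  have hlog2 : Real.log 2 ≤ A := by
    refine le_trans ?_ hA
    exact Real.log_le_log (by norm_num) (by norm_num)
  refine ⟨fun k => Real.exp (TT i0 K J A C k), Real.exp (A + 2 * C), fun k => Real.exp_pos _,
    Real.exp_pos _, ?_, ?_, ?_⟩
  · intro k
    rw [← Real.exp_nat_mul]
    apply Real.exp_le_exp.2
    refine (TT_le i0 K J A C hC hK hJ k).trans ?_
    rw [sum_eq_gr i0]
    push_cast
    nlinarith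
  · intro k k' hk hk'
    change Real.exp _ * Real.exp _ ≤ Real.exp _
    rw [← Real.exp_add]
    apply Real.exp_le_exp.2
    have := TT_key i0 K J A C hC hK hJ hJm k k' hk hk' 0
      (fun _ h1 h2 => by have := hK0 _ _ h1 h2; linarith)
      (fun _ h2 => by
        have := hJm (Nat.sub_le (k i0 + k' i0) 1)
        linarith) (fun _ => hA0)
    linarith
  · intro k k' hk hk' j
    change Real.exp _ * Real.exp _ ≤ Real.exp _ * _
    -- it suffices to have positivity of the divisor and the logarithmic inequality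
    suffices H : 0 < ‖∏ i, lam i ^ ((k + k') i) - lam j‖ ∧
        TT i0 K J A C k + TT i0 K J A C k' + (-Real.log ‖∏ i, lam i ^ ((k + k') i) - lam j‖) ≤
          TT i0 K J A C (k + k') by
      obtain ⟨hpos, hle⟩ := H
      rw [← Real.exp_add]
      calc Real.exp (TT i0 K J A C k + TT i0 K J A C k')
          ≤ Real.exp (TT i0 K J A C (k + k') + Real.log ‖∏ i, lam i ^ ((k + k') i) - lam j‖) := by
            apply Real.exp_le_exp.2; linarith
        _ = _ := by rw [Real.exp_add, Real.exp_log hpos]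
    have haddc : (k + k') i0 = k i0 + k' i0 := rfl
    -- a generic lower bound
    have generic : ∀ y : ℝ, 0 < y → -Real.log y ≤ A →
        y ≤ ‖∏ i, lam i ^ ((k + k') i) - lam j‖ →
        0 < ‖∏ i, lam i ^ ((k + k') i) - lam j‖ ∧
        TT i0 K J A C k + TT i0 K J A C k' + (-Real.log ‖∏ i, lam i ^ ((k + k') i) - lam j‖) ≤
          TT i0 K J A C (k + k') := by
      intro y hy hyA hle
      have hlog : -Real.log ‖∏ i, lam i ^ ((k + k') i) - lam j‖ ≤ A :=
        le_trans (neg_le_neg (Real.log_le_log hy hle)) hyA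
      refine ⟨hy.trans_le hle, ?_⟩
      refine TT_key i0 K J A C hC hK hJ hJm k k' hk hk' _ ?_ ?_ ?_
      · intro _ h1 h2
        have := hK0 _ _ h1 h2
        linarith
      · intro _ h2
        have := hJm (Nat.sub_le (k i0 + k' i0) 1)
        linarith
      · intro _; exact hlog
    have hhalf : -Real.log (1 / 2) ≤ A := by
      rw [one_div, Real.log_inv, neg_neg]; exact hlog2
    have hquart : -Real.log (1 / 4) ≤ A := by
      rw [one_div, Real.log_inv, neg_neg]; exact hA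
    have hnorm := norm_prod_all i0 lam h0 h1 (k + k')
    by_cases hj : j = i0
    · subst hj
      by_cases hg : gr j (k + k') = 0
      · -- grade zero
        have hg1 : gr j k = 0 := by rw [gr_add] at hg; omega
        have hg2 : gr j k' = 0 := by rw [gr_add] at hg; omega
        have hc1 : 1 ≤ k j := by
          by_contra hcon
          apply hk; funext i
          by_cases hi : i = j
          · subst hi; simpa using hcon
          · exact (Finset.sum_eq_zero_iff.1 hg1) i (Finset.mem_erase.2 ⟨hi, Finset.mem_univ i⟩)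
        have hc2 : 1 ≤ k' j := by
          by_contra hcon
          apply hk'; funext i
          by_cases hi : i = j
          · subst hi; simpa using hcon
          · exact (Finset.sum_eq_zero_iff.1 hg2) i (Finset.mem_erase.2 ⟨hi, Finset.mem_univ i⟩)
        have e : ∏ i, lam i ^ ((k + k') i) = lam j ^ (k j + k' j) := by
          rw [prod_eq j, haddc]
          have : ∏ i ∈ Finset.univ.erase j, lam i ^ (k + k') i = 1 := by
            refine Finset.prod_eq_one fun i hi => ?_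
            rw [(Finset.sum_eq_zero_iff.1 hg) i hi, pow_zero]
          rw [this, mul_one]
        rw [e]
        refine ⟨norm_pos_iff.2 (sub_ne_zero.2 (hn0 _ (by omega))), ?_⟩
        refine TT_key j K J A C hC hK hJ hJm k k' hk hk' _ ?_ ?_ ?_
        · intro _ h1 h2
          have := hKs _ _ h1 h2
          linarith
        · intro h; omega
        · intro h; omega
      · apply generic (1 / 2) (by norm_num) hhalf
        have h2 : ‖lam j‖ - ‖∏ i, lam i ^ ((k + k') i)‖ ≤ ‖∏ i, lam i ^ ((k + k') i) - lam j‖ := by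
          rw [norm_sub_rev]; exact norm_sub_norm_le _ _
        rw [h0, hnorm] at h2
        have h3 : ((1 : ℝ) / 2) ^ (gr j (k + k')) ≤ (1 / 2) ^ 1 :=
          pow_le_pow_of_le_one (by norm_num) (by norm_num) (by omega)
        linarith
    · rcases Nat.lt_trichotomy (gr i0 (k + k')) 1 with hlt | heq | hgt
      · apply generic (1 / 2) (by norm_num) hhalf
        have h2 : ‖∏ i, lam i ^ ((k + k') i)‖ - ‖lam j‖ ≤ ‖∏ i, lam i ^ ((k + k') i) - lam j‖ :=
          norm_sub_norm_le _ _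
        rw [h1 j hj, hnorm] at h2
        have h3 : gr i0 (k + k') = 0 := by omega
        rw [h3] at h2
        linarith
      · obtain ⟨i, hi, hprod⟩ := gr_one i0 lam (k + k') heq
        rw [hprod, haddc]
        have hc : 1 ≤ k i0 + k' i0 := by
          by_contra hcon
          have hz1 : k i0 = 0 := by omega
          have hz2 : k' i0 = 0 := by omega
          have hg := gr_add i0 k k'
          rw [heq] at hg
          rcases (by omega : gr i0 k = 0 ∨ gr i0 k' = 0) with hz | hz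
          · apply hk; funext l
            by_cases hl : l = i0
            · subst hl; exact hz1
            · exact (Finset.sum_eq_zero_iff.1 hz) l (Finset.mem_erase.2 ⟨hl, Finset.mem_univ l⟩)
          · apply hk'; funext l
            by_cases hl : l = i0
            · subst hl; exact hz2
            · exact (Finset.sum_eq_zero_iff.1 hz) l (Finset.mem_erase.2 ⟨hl, Finset.mem_univ l⟩)
        refine ⟨norm_pos_iff.2 (sub_ne_zero.2 (hn1 _ hc i j hi hj)), ?_⟩
        refine TT_key i0 K J A C hC hK hJ hJm k k' hk hk' _ ?_ ?_ ?_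
        · intro h; omega
        · intro _ h2
          have := hJs _ h2 i j hi hj
          linarith
        · intro h; omega
      · apply generic (1 / 4) (by norm_num) hquart
        have h2 : ‖lam j‖ - ‖∏ i, lam i ^ ((k + k') i)‖ ≤ ‖∏ i, lam i ^ ((k + k') i) - lam j‖ := by
          rw [norm_sub_rev]; exact norm_sub_norm_le _ _
        rw [h1 j hj, hnorm] at h2
        have h3 : ((1 : ℝ) / 2) ^ (gr i0 (k + k')) ≤ (1 / 2) ^ 2 :=
          pow_le_pow_of_le_one (by norm_num) (by norm_num) (by omega)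
        norm_num at h3 h2 ⊢
        linarith

end Weight

/-! ## Counting functions -/

open Classical in
/-- last element of `R` which is at most `c` (or zero) -/
noncomputable def lastIn (R : Set ℕ) (c : ℕ) : ℕ := Nat.findGreatest (fun x => x ∈ R) c

theorem lastIn_le (R : Set ℕ) (c : ℕ) : lastIn R c ≤ c := by
  classical
  exact Nat.findGreatest_le c

theorem lastIn_mem (R : Set ℕ) (c : ℕ) (h : lastIn R c ≠ 0) : lastIn R c ∈ R := by
  classical
  exact Nat.findGreatest_of_ne_zero (P := fun x => x ∈ R) rfl h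

theorem lastIn_mono (R : Set ℕ) {c c' : ℕ} (h : c ≤ c') : lastIn R c ≤ lastIn R c' := by
  classical
  exact Nat.findGreatest_mono_right _ h

theorem lastIn_self (R : Set ℕ) (c : ℕ) (h : c ∈ R) : lastIn R c = c := by
  classical
  exact Nat.findGreatest_eq h

/-- counting function -/
noncomputable def GG (R : Set ℕ) (q : ℝ) (c : ℕ) : ℝ :=
  max 0 (max (2 * (c : ℝ) / q - 2) (2 * (lastIn R c : ℝ) / q - 1))

theorem GG_nonneg (R : Set ℕ) (q : ℝ) (c : ℕ) : 0 ≤ GG R q c := le_max_left _ _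

theorem GG_le (R : Set ℕ) (q : ℝ) (hq : 0 < q) (c : ℕ) : GG R q c ≤ 2 * (c : ℝ) / q := by
  have hc : (0 : ℝ) ≤ 2 * (c : ℝ) / q := by positivity
  have h2 : 2 * (lastIn R c : ℝ) / q ≤ 2 * (c : ℝ) / q := by
    have : (lastIn R c : ℝ) ≤ c := by exact_mod_cast lastIn_le R c
    gcongr
  exact max_le hc (max_le (by linarith) (by linarith))

theorem GG_mono (R : Set ℕ) (q : ℝ) (hq : 0 < q) {c c' : ℕ} (h : c ≤ c') :
    GG R q c ≤ GG R q c' := by
  have h1 : (c : ℝ) ≤ c' := by exact_mod_cast h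
  have h2 : (lastIn R c : ℝ) ≤ lastIn R c' := by exact_mod_cast lastIn_mono R h
  unfold GG
  gcongr

theorem GG_pos (R : Set ℕ) (q : ℝ) (hq : 0 < q) (c : ℕ) :
    GG R q c = 0 ∨ GG R q c ≤ 2 * (c : ℝ) / q - 1 := by
  have h2 : 2 * (lastIn R c : ℝ) / q ≤ 2 * (c : ℝ) / q := by
    have : (lastIn R c : ℝ) ≤ c := by exact_mod_cast lastIn_le R c
    gcongr
  unfold GG
  rcases le_total (max (2 * (c : ℝ) / q - 2) (2 * (lastIn R c : ℝ) / q - 1)) 0 with h | h
  · left; exact max_eq_left h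
  · right
    rw [max_eq_right h]
    exact max_le (by linarith) (by linarith)

open Classical in
theorem GG_step (R : Set ℕ) (q : ℝ) (hq : 0 < q) (hmin : ∀ c ∈ R, q ≤ (c : ℝ))
    (hgap : ∀ c ∈ R, ∀ c' ∈ R, c < c' → q ≤ (c' : ℝ) - c) (a b : ℕ) (ha : 1 ≤ a) (hb : 1 ≤ b) :
    GG R q a + GG R q b + (if a + b ∈ R then 1 else 0) ≤ GG R q (a + b) := by
  have key1 : 2 * ((a + b : ℕ) : ℝ) / q - 2 ≤ GG R q (a + b) :=
    (le_max_left _ _).trans (le_max_right _ _)
  have key2 : a + b ∈ R → 2 * ((a + b : ℕ) : ℝ) / q - 1 ≤ GG R q (a + b) := by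
    intro h
    have := (le_max_right (2 * ((a + b : ℕ) : ℝ) / q - 2)
      (2 * (lastIn R (a + b) : ℝ) / q - 1)).trans (le_max_right 0 _)
    rw [lastIn_self R _ h] at this
    unfold GG
    rw [lastIn_self R _ h]
    exact this
  have hcast : 2 * ((a + b : ℕ) : ℝ) / q = 2 * (a : ℝ) / q + 2 * (b : ℝ) / q := by
    push_cast; ring
  -- one-sided case
  have one : ∀ a b : ℕ, 1 ≤ a → 1 ≤ b → a + b ∈ R → GG R q a + 1 ≤ 2 * ((a + b : ℕ) : ℝ) / q - 1 := by
    intro a b ha hb h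
    have hn := hmin _ h
    have hn' : 1 ≤ ((a + b : ℕ) : ℝ) / q := (one_le_div hq).2 hn
    have e0 : 2 * ((a + b : ℕ) : ℝ) / q = 2 * (((a + b : ℕ) : ℝ) / q) := by ring
    have h3 : (a : ℝ) ≤ ((a + b : ℕ) : ℝ) := by push_cast; linarith [(Nat.cast_nonneg b : (0:ℝ) ≤ b)]
    have h4 : 2 * (a : ℝ) / q ≤ 2 * ((a + b : ℕ) : ℝ) / q := by gcongr
    have h5 : 2 * (lastIn R a : ℝ) / q - 1 ≤ 2 * ((a + b : ℕ) : ℝ) / q - 2 := by
      by_cases hz : lastIn R a = 0
      · rw [hz]; push_cast; rw [mul_zero, zero_div]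
        push_cast at e0 hn' ⊢
        linarith
      · have hm := lastIn_mem R a hz
        have hlt : lastIn R a < a + b := lt_of_le_of_lt (lastIn_le R a) (by omega)
        have hg := hgap _ hm _ h hlt
        have : 2 * (lastIn R a : ℝ) / q ≤ 2 * (((a + b : ℕ) : ℝ) - q) / q := by
          gcongr; linarith
        have e : 2 * (((a + b : ℕ) : ℝ) - q) / q = 2 * ((a + b : ℕ) : ℝ) / q - 2 := by
          field_simp
        linarith
    have : GG R q a ≤ 2 * ((a + b : ℕ) : ℝ) / q - 2 := by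
      refine max_le ?_ (max_le ?_ h5)
      · linarith
      · linarith
    linarith
  rcases GG_pos R q hq a with h1 | h1 <;> rcases GG_pos R q hq b with h2 | h2
  · split_ifs with h
    · have := one a b ha hb h
      have := key2 h
      rw [h2]; linarith
    · rw [h1, h2]; simpa using GG_nonneg R q (a + b)
  · split_ifs with h
    · have h3 := one b a hb ha (by rwa [add_comm])
      have h4 := key2 h
      rw [add_comm b a] at h3
      rw [h1]; linarith
    · have := GG_mono R q hq (show b ≤ a + b by omega)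
      rw [h1]; linarith
  · split_ifs with h
    · have h3 := one a b ha hb h
      have h4 := key2 h
      rw [h2]; linarith
    · have := GG_mono R q hq (show a ≤ a + b by omega)
      rw [h2]; linarith
  · split_ifs with h
    · have := key2 h
      linarith
    · linarith

theorem log_le_count (ε : ℝ) (N : ℕ) (hN : (1 / 2 : ℝ) ^ (N + 1) < ε) :
    -Real.log ε ≤ Real.log 2 * (1 + ∑ i ∈ range N, if ε ≤ (1 / 2 : ℝ) ^ (i + 1) then 1 else 0) := by
  have hlog : 0 < Real.log 2 := Real.log_pos (by norm_num)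
  induction N with
  | zero =>
    have h1 : Real.log ((1 / 2) ^ (0 + 1)) < Real.log ε := Real.log_lt_log (by positivity) hN
    rw [zero_add, pow_one, one_div, Real.log_inv] at h1
    simp only [range_zero, sum_empty, add_zero, mul_one]
    linarith
  | succ N ih =>
    by_cases h : (1 / 2 : ℝ) ^ (N + 1) < ε
    · refine (ih h).trans ?_
      rw [Finset.sum_range_succ]
      have : (0 : ℝ) ≤ if ε ≤ (1 / 2 : ℝ) ^ (N + 1) then 1 else 0 := by split_ifs <;> norm_num
      nlinarith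
    · push Not at h
      have hall : ∑ i ∈ range (N + 1), (if ε ≤ (1 / 2 : ℝ) ^ (i + 1) then (1 : ℝ) else 0) = N + 1 := by
        have : ∀ i ∈ range (N + 1), (if ε ≤ (1 / 2 : ℝ) ^ (i + 1) then (1 : ℝ) else 0) = 1 := by
          intro i hi
          rw [if_pos]
          refine h.trans (pow_le_pow_of_le_one (by norm_num) (by norm_num) ?_)
          have := mem_range.1 hi
          omega
        rw [Finset.sum_congr rfl this]
        simp
      rw [hall]
      have h1 : Real.log ((1 / 2) ^ (N + 1 + 1)) < Real.log ε := Real.log_lt_log (by positivity) hN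
      rw [Real.log_pow, one_div, Real.log_inv] at h1
      push_cast at h1
      nlinarith

section KK

variable (ρ : ℂ) (γ : ℝ)

theorem exists_K (hρ : ‖ρ‖ = 1) (hγ : 0 < γ) (hdio : ∀ n : ℕ, 1 ≤ n → γ / n ≤ ‖ρ ^ n - 1‖) :
    ∃ (K : ℕ → ℝ) (C : ℝ), 0 ≤ C ∧ (∀ c : ℕ, K c ≤ C * c) ∧
      (∀ a b : ℕ, 1 ≤ a → 1 ≤ b → K a + K b ≤ K (a + b)) ∧
      (∀ a b : ℕ, 1 ≤ a → 1 ≤ b →
        K a + K b - Real.log ‖ρ ^ (a + b) - ρ‖ ≤ Real.log 2 + K (a + b)) := by
  classical
  let R : ℕ → Set ℕ := fun i => {c | 2 ≤ c ∧ ‖ρ ^ (c - 1) - 1‖ ≤ (1 / 2 : ℝ) ^ (i + 1)}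
  let q : ℕ → ℝ := fun i => γ * 2 ^ i
  have hq : ∀ i, 0 < q i := fun i => by positivity
  have hmin : ∀ i, ∀ c ∈ R i, q i ≤ (c : ℝ) := by
    rintro i c ⟨hc, hle⟩
    have h1 := hdio (c - 1) (by omega)
    have h2 : γ / ((c - 1 : ℕ) : ℝ) ≤ (1 / 2) ^ (i + 1) := h1.trans hle
    have hpos : (0 : ℝ) < ((c - 1 : ℕ) : ℝ) := by exact_mod_cast (by omega : 0 < c - 1)
    rw [div_le_iff₀ hpos] at h2
    have h3 : ((c - 1 : ℕ) : ℝ) ≤ c := by exact_mod_cast Nat.sub_le c 1
    have h4 : q i = γ * 2 ^ i := rfl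
    rw [h4]
    have h5 : ((1 : ℝ) / 2) ^ (i + 1) * 2 ^ i = 1 / 2 := by
      rw [pow_succ, one_div, inv_pow]; field_simp
    have h6 : γ * 2 ^ i ≤ ((1 : ℝ) / 2) ^ (i + 1) * ((c - 1 : ℕ) : ℝ) * 2 ^ i := by gcongr
    have h7 : ((1 : ℝ) / 2) ^ (i + 1) * ((c - 1 : ℕ) : ℝ) * 2 ^ i = (1 / 2) * ((c - 1 : ℕ) : ℝ) := by
      rw [mul_assoc, mul_comm (((c - 1 : ℕ) : ℝ)), ← mul_assoc, h5]
    nlinarith
  have hgap : ∀ i, ∀ c ∈ R i, ∀ c' ∈ R i, c < c' → q i ≤ (c' : ℝ) - c := by
    rintro i c ⟨hc, hle⟩ c' ⟨hc', hle'⟩ hlt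
    have h1 := hdio (c' - c) (by omega)
    have h2 : ‖ρ ^ (c' - c) - 1‖ ≤ (1 / 2) ^ i := by
      have e : ρ ^ (c - 1) * (ρ ^ (c' - c) - 1) = (ρ ^ (c' - 1) - 1) - (ρ ^ (c - 1) - 1) := by
        have : ρ ^ (c' - 1) = ρ ^ (c - 1) * ρ ^ (c' - c) := by
          rw [← pow_add]; congr 1; omega
        rw [this]; ring
      have e2 : ‖ρ ^ (c' - c) - 1‖ = ‖(ρ ^ (c' - 1) - 1) - (ρ ^ (c - 1) - 1)‖ := by
        rw [← e, norm_mul, norm_pow, hρ, one_pow, one_mul]
      rw [e2]
      refine (norm_sub_le _ _).trans ?_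
      have : ((1 : ℝ) / 2) ^ i = (1 / 2) ^ (i + 1) + (1 / 2) ^ (i + 1) := by
        rw [pow_succ]; ring
      rw [this]; exact add_le_add hle' hle
    have hpos : (0 : ℝ) < ((c' - c : ℕ) : ℝ) := by exact_mod_cast (by omega : 0 < c' - c)
    have h3 := h1.trans h2
    rw [div_le_iff₀ hpos] at h3
    have h4 : ((c' - c : ℕ) : ℝ) = (c' : ℝ) - c := by rw [Nat.cast_sub hlt.le]
    rw [← h4]
    have h5 : ((1 : ℝ) / 2) ^ i * 2 ^ i = 1 := by
      rw [← mul_pow]; norm_num
    calc q i = γ * 2 ^ i := rfl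
      _ ≤ ((1 : ℝ) / 2) ^ i * ((c' - c : ℕ) : ℝ) * 2 ^ i := by gcongr
      _ = (((1 : ℝ) / 2) ^ i * 2 ^ i) * ((c' - c : ℕ) : ℝ) := by ring
      _ = _ := by rw [h5, one_mul]
  have hgeo : ∀ c : ℕ, HasSum (fun i => 2 * (c : ℝ) / q i) (4 * c / γ) := by
    intro c
    have h1 : HasSum (fun i : ℕ => ((1 : ℝ) / 2) ^ i) 2 := hasSum_geometric_two
    have h2 := h1.mul_left (2 * (c : ℝ) / γ)
    have e1 : (fun i => 2 * (c : ℝ) / q i) = fun i => 2 * (c : ℝ) / γ * (1 / 2) ^ i := by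
      funext i
      simp only [q]
      rw [one_div, inv_pow]
      field_simp
    have e2 : 4 * (c : ℝ) / γ = 2 * (c : ℝ) / γ * 2 := by ring
    rw [e1, e2]; exact h2
  have hG : ∀ c, Summable (fun i => GG (R i) (q i) c) := fun c =>
    Summable.of_nonneg_of_le (fun i => GG_nonneg _ _ _) (fun i => GG_le _ _ (hq i) _) (hgeo c).summable
  have hlog : 0 < Real.log 2 := Real.log_pos (by norm_num)
  have hstep : ∀ i a b, 1 ≤ a → 1 ≤ b →
      GG (R i) (q i) a + GG (R i) (q i) b + (if a + b ∈ R i then 1 else 0) ≤ GG (R i) (q i) (a + b) :=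
    fun i a b ha hb => by
      have := GG_step (R i) (q i) (hq i) (hmin i) (hgap i) a b ha hb
      convert! this
  have hind : ∀ a b, 1 ≤ a → 1 ≤ b →
      Summable (fun i => if a + b ∈ R i then (1 : ℝ) else 0) := by
    intro a b ha hb
    refine Summable.of_nonneg_of_le (fun i => by split_ifs <;> norm_num) (fun i => ?_) (hG (a + b))
    have := hstep i a b ha hb
    have h1 := GG_nonneg (R i) (q i) a
    have h2 := GG_nonneg (R i) (q i) b
    linarith
  refine ⟨fun c => Real.log 2 * ∑' i, GG (R i) (q i) c, Real.log 2 * (4 / γ), by positivity, ?_, ?_, ?_⟩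
  · intro c
    have h1 : ∑' i, GG (R i) (q i) c ≤ 4 * c / γ := by
      rw [← (hgeo c).tsum_eq]
      exact (hG c).tsum_le_tsum (fun i => GG_le _ _ (hq i) _) (hgeo c).summable
    calc Real.log 2 * ∑' i, GG (R i) (q i) c ≤ Real.log 2 * (4 * c / γ) := by gcongr
      _ = _ := by ring
  · intro a b ha hb
    change Real.log 2 * _ + Real.log 2 * _ ≤ Real.log 2 * _
    rw [← mul_add, ← (hG a).tsum_add (hG b)]
    refine mul_le_mul_of_nonneg_left ?_ hlog.le
    refine ((hG a).add (hG b)).tsum_le_tsum (fun i => ?_) (hG (a + b))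
    have := hstep i a b ha hb
    have h3 : (0 : ℝ) ≤ if a + b ∈ R i then 1 else 0 := by split_ifs <;> norm_num
    linarith
  · intro a b ha hb
    have hε : 0 < ‖ρ ^ (a + b - 1) - 1‖ :=
      lt_of_lt_of_le (div_pos hγ (by exact_mod_cast (by omega : 0 < a + b - 1)))
        (hdio (a + b - 1) (by omega))
    have e1 : ‖ρ ^ (a + b) - ρ‖ = ‖ρ ^ (a + b - 1) - 1‖ := by
      have : ρ ^ (a + b) - ρ = ρ * (ρ ^ (a + b - 1) - 1) := by
        rw [mul_sub, mul_one, ← pow_succ']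
        congr 2; omega
      rw [this, norm_mul, hρ, one_mul]
    obtain ⟨N, hN⟩ := exists_pow_lt_of_lt_one hε (by norm_num : (1 / 2 : ℝ) < 1)
    have hN' : (1 / 2 : ℝ) ^ (N + 1) < ‖ρ ^ (a + b - 1) - 1‖ :=
      lt_of_le_of_lt (pow_le_pow_of_le_one (by norm_num) (by norm_num) (Nat.le_succ N)) hN
    have h1 := log_le_count _ N hN'
    have h2 : ∑ i ∈ range N, (if ‖ρ ^ (a + b - 1) - 1‖ ≤ (1 / 2 : ℝ) ^ (i + 1) then (1 : ℝ) else 0) ≤
        ∑' i, (if a + b ∈ R i then (1 : ℝ) else 0) := by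
      have e2 : (fun i => if ‖ρ ^ (a + b - 1) - 1‖ ≤ (1 / 2 : ℝ) ^ (i + 1) then (1 : ℝ) else 0) =
          fun i => if a + b ∈ R i then (1 : ℝ) else 0 := by
        funext i
        have : (a + b ∈ R i) ↔ ‖ρ ^ (a + b - 1) - 1‖ ≤ (1 / 2 : ℝ) ^ (i + 1) := by
          constructor
          · intro h; exact h.2
          · intro h; exact ⟨by omega, h⟩
        simp only [this]
      rw [e2]
      exact (hind a b ha hb).sum_le_tsum _ (fun i _ => by split_ifs <;> norm_num)
    have h3 : Real.log 2 * (∑' i, GG (R i) (q i) a) + Real.log 2 * (∑' i, GG (R i) (q i) b) +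
        Real.log 2 * ∑' i, (if a + b ∈ R i then (1 : ℝ) else 0) ≤
        Real.log 2 * ∑' i, GG (R i) (q i) (a + b) := by
      rw [← mul_add, ← mul_add, ← (hG a).tsum_add (hG b),
        ← ((hG a).add (hG b)).tsum_add (hind a b ha hb)]
      refine mul_le_mul_of_nonneg_left ?_ hlog.le
      exact (((hG a).add (hG b)).add (hind a b ha hb)).tsum_le_tsum
        (fun i => hstep i a b ha hb) (hG (a + b))
    change Real.log 2 * _ + Real.log 2 * _ - _ ≤ Real.log 2 + Real.log 2 * _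
    rw [e1]
    have h4 : Real.log 2 * ∑ i ∈ range N, (if ‖ρ ^ (a + b - 1) - 1‖ ≤ (1 / 2 : ℝ) ^ (i + 1)
        then (1 : ℝ) else 0) ≤ Real.log 2 * ∑' i, (if a + b ∈ R i then (1 : ℝ) else 0) :=
      mul_le_mul_of_nonneg_left h2 hlog.le
    rw [mul_add, mul_one] at h1
    linarith

/-- counting points with gaps -/
theorem card_gap (S : Finset ℕ) (q : ℝ)
    (hgap : ∀ c ∈ S, ∀ c' ∈ S, c < c' → q ≤ (c' : ℝ) - c) :
    ∀ M : ℝ, -q ≤ M → (∀ x ∈ S, (x : ℝ) ≤ M) → (S.card : ℝ) * q ≤ M + q := by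
  induction S using Finset.induction_on_max with
  | empty => intro M hM _; simp; linarith
  | insert a s has ih =>
    intro M hM hle
    have ha : a ∉ s := fun h => lt_irrefl _ (has a h)
    rw [Finset.card_insert_of_notMem ha]
    have h1 := ih (fun c hc c' hc' => hgap c (mem_insert_of_mem hc) c' (mem_insert_of_mem hc'))
      ((a : ℝ) - q) (by linarith [(Nat.cast_nonneg a : (0:ℝ) ≤ a)]) (fun x hx => by
        have := hgap x (mem_insert_of_mem hx) a (mem_insert_self _ _) (has x hx)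
        linarith)
    have h2 := hle a (mem_insert_self _ _)
    push_cast
    linarith

theorem exists_J (hρ : ‖ρ‖ = 1) (hγ : 0 < γ) (hdio : ∀ n : ℕ, 1 ≤ n → γ / n ≤ ‖ρ ^ n - 1‖)
    (w : ℂ) (hw : ‖w‖ = 1) (a b : ℕ)
    (hlow : ∀ c : ℕ, 1 ≤ c → (1 / 2 : ℝ) ^ (a * c + b + 1) < ‖w * ρ ^ c - 1‖) :
    ∃ (J : ℕ → ℝ) (C : ℝ), 0 ≤ C ∧ (∀ c : ℕ, J c ≤ C * (c + 1)) ∧ Monotone J ∧
      (∀ c : ℕ, 1 ≤ c → J (c - 1) - Real.log ‖w * ρ ^ c - 1‖ ≤ J c) := by
  classical
  let ε : ℕ → ℝ := fun c => ‖w * ρ ^ c - 1‖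
  have hlog : 0 < Real.log 2 := Real.log_pos (by norm_num)
  let q : ℕ → ℝ := fun i => γ * 2 ^ i
  have hq : ∀ i, 0 < q i := fun i => by positivity
  have hstep : ∀ N : ℕ, ∑ c ∈ Icc 1 (N + 1), max 0 (-Real.log (ε c)) =
      ∑ c ∈ Icc 1 N, max 0 (-Real.log (ε c)) + max 0 (-Real.log (ε (N + 1))) := by
    intro N
    rw [Finset.sum_Icc_succ_top (by omega)]
  refine ⟨fun N => ∑ c ∈ Icc 1 N, max 0 (-Real.log (ε c)),
    Real.log 2 * (1 + a + b + 2 / γ), by positivity, ?_, ?_, ?_⟩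
  · intro N
    have h1 : ∀ c ∈ Icc 1 N, max 0 (-Real.log (ε c)) ≤ Real.log 2 * (1 + ∑ i ∈ range (a * N + b),
        if ε c ≤ (1 / 2 : ℝ) ^ (i + 1) then 1 else 0) := by
      intro c hc
      have hc1 := (mem_Icc.1 hc).1
      have hc2 := (mem_Icc.1 hc).2
      have hl := hlow c hc1
      have hpos : 0 < ε c := lt_trans (by positivity) hl
      have hl' : (1 / 2 : ℝ) ^ (a * N + b + 1) < ε c := by
        refine lt_of_le_of_lt (pow_le_pow_of_le_one (by norm_num) (by norm_num) ?_) hl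
        have := Nat.mul_le_mul_left a hc2
        omega
      refine max_le ?_ (log_le_count (ε c) (a * N + b) hl')
      have : (0 : ℝ) ≤ ∑ i ∈ range (a * N + b), if ε c ≤ (1 / 2 : ℝ) ^ (i + 1) then 1 else 0 :=
        Finset.sum_nonneg fun i _ => by split_ifs <;> norm_num
      positivity
    refine (Finset.sum_le_sum h1).trans ?_
    rw [← Finset.mul_sum, Finset.sum_add_distrib, Finset.sum_comm]
    have hcount : ∀ i ∈ range (a * N + b),
        (∑ c ∈ Icc 1 N, if ε c ≤ (1 / 2 : ℝ) ^ (i + 1) then (1 : ℝ) else 0) ≤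
          1 + (N : ℝ) / q i := by
      intro i _
      rw [← Finset.sum_filter, Finset.sum_const, nsmul_eq_mul, mul_one]
      have h2 := card_gap ((Icc 1 N).filter fun c => ε c ≤ (1 / 2 : ℝ) ^ (i + 1)) (q i) (by
        intro c hc c' hc' hlt
        have hle := (mem_filter.1 hc).2
        have hle' := (mem_filter.1 hc').2
        have h1 := hdio (c' - c) (by omega)
        have h2 : ‖ρ ^ (c' - c) - 1‖ ≤ (1 / 2) ^ i := by
          have e : w * ρ ^ c * (ρ ^ (c' - c) - 1) = (w * ρ ^ c' - 1) - (w * ρ ^ c - 1) := by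
            have : ρ ^ c' = ρ ^ c * ρ ^ (c' - c) := by
              rw [← pow_add]; congr 1; omega
            rw [this]; ring
          have e2 : ‖ρ ^ (c' - c) - 1‖ = ‖(w * ρ ^ c' - 1) - (w * ρ ^ c - 1)‖ := by
            rw [← e, norm_mul, norm_mul, norm_pow, hρ, hw, one_pow, one_mul, one_mul]
          rw [e2]
          refine (norm_sub_le _ _).trans ?_
          have : ((1 : ℝ) / 2) ^ i = (1 / 2) ^ (i + 1) + (1 / 2) ^ (i + 1) := by
            rw [pow_succ]; ring
          rw [this]; exact add_le_add hle' hle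
        have hpos : (0 : ℝ) < ((c' - c : ℕ) : ℝ) := by exact_mod_cast (by omega : 0 < c' - c)
        have h3 := h1.trans h2
        rw [div_le_iff₀ hpos] at h3
        have h4 : ((c' - c : ℕ) : ℝ) = (c' : ℝ) - c := by rw [Nat.cast_sub hlt.le]
        rw [← h4]
        have h5 : ((1 : ℝ) / 2) ^ i * 2 ^ i = 1 := by
          rw [← mul_pow]; norm_num
        calc q i = γ * 2 ^ i := rfl
          _ ≤ ((1 : ℝ) / 2) ^ i * ((c' - c : ℕ) : ℝ) * 2 ^ i := by gcongr
          _ = (((1 : ℝ) / 2) ^ i * 2 ^ i) * ((c' - c : ℕ) : ℝ) := by ring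
          _ = _ := by rw [h5, one_mul]) (N : ℝ)
        (by linarith [hq i, (Nat.cast_nonneg N : (0:ℝ) ≤ N)])
        (fun x hx => by exact_mod_cast (mem_Icc.1 (mem_filter.1 hx).1).2)
      rw [← le_div_iff₀ (hq i)] at h2
      refine h2.trans (le_of_eq ?_)
      rw [add_div, div_self (hq i).ne', add_comm]
    have hsum := Finset.sum_le_sum hcount
    have hgeo : ∑ i ∈ range (a * N + b), (1 + (N : ℝ) / q i) ≤ (a * N + b) + 2 * N / γ := by
      rw [Finset.sum_add_distrib]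
      have h3 : ∑ i ∈ range (a * N + b), (N : ℝ) / q i ≤ 2 * N / γ := by
        have e1 : ∀ i ∈ range (a * N + b), (N : ℝ) / q i = (N : ℝ) / γ * (1 / 2) ^ i := by
          intro i _
          simp only [q]
          rw [one_div, inv_pow]
          field_simp
        rw [Finset.sum_congr rfl e1, ← Finset.mul_sum]
        have h4 : ∑ i ∈ range (a * N + b), ((1 : ℝ) / 2) ^ i ≤ 2 := by
          have := (hasSum_geometric_two).summable.sum_le_tsum (range (a * N + b))
            (fun i _ => by positivity)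
          rwa [tsum_geometric_two] at this
        calc (N : ℝ) / γ * ∑ i ∈ range (a * N + b), ((1 : ℝ) / 2) ^ i ≤ (N : ℝ) / γ * 2 := by gcongr
          _ = _ := by ring
      have h5 : ∑ i ∈ range (a * N + b), (1 : ℝ) = a * N + b := by
        simp
      rw [h5]; linarith
    have hcard : ∑ c ∈ Icc 1 N, (1 : ℝ) = N := by simp
    rw [hcard]
    have hN : (0 : ℝ) ≤ N := Nat.cast_nonneg N
    have ha : (0 : ℝ) ≤ a := Nat.cast_nonneg a
    have hb : (0 : ℝ) ≤ b := Nat.cast_nonneg b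
    have hg : (0 : ℝ) ≤ 2 / γ := by positivity
    have h6 := hsum.trans hgeo
    rw [mul_assoc]
    refine mul_le_mul_of_nonneg_left ?_ hlog.le
    have e3 : 2 * (N : ℝ) / γ = 2 / γ * N := by ring
    rw [e3] at h6
    nlinarith [mul_nonneg hb hN]
  · intro N M h
    refine Finset.sum_le_sum_of_subset_of_nonneg (Finset.Icc_subset_Icc_right h) ?_
    intro i _ _
    exact le_max_left _ _
  · intro c hc
    obtain ⟨N, rfl⟩ : ∃ N, c = N + 1 := ⟨c - 1, by omega⟩
    change ∑ c ∈ Icc 1 (N + 1 - 1), max 0 (-Real.log (ε c)) - Real.log (ε (N + 1)) ≤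
      ∑ c ∈ Icc 1 (N + 1), max 0 (-Real.log (ε c))
    rw [hstep N, Nat.add_sub_cancel]
    have := le_max_right 0 (-Real.log (ε (N + 1)))
    linarith

end KK

/-! ## The rotation by `√2` -/

/-- `exp (2πiτ)` -/
noncomputable def ee (τ : ℝ) : ℂ := Complex.exp (Complex.I * ((2 * Real.pi * τ : ℝ) : ℂ))

theorem ee_norm (τ : ℝ) : ‖ee τ‖ = 1 := by
  unfold ee
  rw [mul_comm]
  exact Complex.norm_exp_ofReal_mul_I _

theorem ee_add (a b : ℝ) : ee (a + b) = ee a * ee b := by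
  unfold ee
  rw [← Complex.exp_add]
  congr 1
  push_cast; ring

theorem ee_int (p : ℤ) : ee p = 1 := by
  unfold ee
  rw [show Complex.I * ((2 * Real.pi * (p : ℝ) : ℝ) : ℂ) = p * (2 * Real.pi * Complex.I) by
    push_cast; ring]
  exact Complex.exp_int_mul_two_pi_mul_I p

theorem ee_zero : ee 0 = 1 := by simpa using ee_int 0

theorem ee_pow (τ : ℝ) (n : ℕ) : ee τ ^ n = ee (n * τ) := by
  induction n with
  | zero => simp [ee_zero]
  | succ n ih =>
    rw [pow_succ, ih, ← ee_add]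
    congr 1
    push_cast; ring

theorem ee_neg (τ : ℝ) : ee (-τ) * ee τ = 1 := by
  rw [← ee_add]; simp [ee_zero]

theorem ee_ne_zero (τ : ℝ) : ee τ ≠ 0 := by
  intro h; have := ee_norm τ; rw [h] at this; simp at this

theorem ee_upper (τ : ℝ) : ‖ee τ - 1‖ ≤ 2 * Real.pi * |τ| := by
  unfold ee
  refine (Real.norm_exp_I_mul_ofReal_sub_one_le).trans ?_
  rw [Real.norm_eq_abs, abs_mul, abs_of_pos (by positivity : (0:ℝ) < 2 * Real.pi)]

theorem ee_lower (τ δ : ℝ) (h : ∀ p : ℤ, δ ≤ |τ - p|) : δ ≤ ‖ee τ - 1‖ := by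
  have h1 : ee τ = ee (τ - round τ) := by
    have : τ = (τ - round τ) + ((round τ : ℤ) : ℝ) := by ring
    conv_lhs => rw [this]
    rw [ee_add, ee_int, mul_one]
  have h2 := abs_sub_round τ
  set t := τ - round τ with ht
  have h3 : δ ≤ |t| := h (round τ)
  rw [h1]
  have h4 : ‖ee t - 1‖ = ‖2 * Real.sin (2 * Real.pi * t / 2)‖ := by
    unfold ee
    exact Complex.norm_exp_I_mul_ofReal_sub_one _
  rw [h4, show 2 * Real.pi * t / 2 = Real.pi * t by ring, Real.norm_eq_abs, abs_mul,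
    abs_of_pos (by norm_num : (0:ℝ) < 2)]
  have hpi := Real.pi_pos
  have h5 : |Real.pi * t| ≤ Real.pi / 2 := by
    rw [abs_mul, abs_of_pos hpi]
    nlinarith
  have h6 := Real.mul_abs_le_abs_sin h5
  rw [abs_mul, abs_of_pos hpi] at h6
  have h7 : 2 / Real.pi * (Real.pi * |t|) = 2 * |t| := by field_simp
  rw [h7] at h6
  have := abs_nonneg t
  linarith

/-- badly approximable property of `√2` -/
theorem sqrt2_dio (n : ℕ) (hn : 1 ≤ n) (p : ℤ) : 1 / (4 * (n : ℝ)) ≤ |n * √2 - p| := by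
  have hs : √2 ^ 2 = 2 := Real.sq_sqrt (by norm_num)
  have hs1 : √2 < 1.415 := by
    rw [Real.sqrt_lt' (by norm_num)]; norm_num
  have hs0 : 0 < √2 := by positivity
  have hn' : (1 : ℝ) ≤ n := by exact_mod_cast hn
  by_contra hcon
  push Not at hcon
  have h1 : 1 / (4 * (n : ℝ)) ≤ 1 / 4 := by
    apply one_div_le_one_div_of_le (by norm_num) (by linarith)
  have h2 : |(p : ℝ)| ≤ n * √2 + 1 / 4 := by
    have := abs_sub_abs_le_abs_sub (p : ℝ) (n * √2)
    rw [abs_sub_comm] at this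
    have h3 : |(n : ℝ) * √2| = n * √2 := abs_of_nonneg (by positivity)
    linarith
  have h3 : |(n : ℝ) * √2 + p| ≤ 2 * (n * √2) + 1 / 4 := by
    have := abs_add_le ((n : ℝ) * √2) p
    have h3 : |(n : ℝ) * √2| = n * √2 := abs_of_nonneg (by positivity)
    linarith
  have h4 : (n * √2 - p) * (n * √2 + p) = ((2 * (n : ℤ) ^ 2 - p ^ 2 : ℤ) : ℝ) := by
    push_cast
    nlinarith
  have h5 : (2 * (n : ℤ) ^ 2 - p ^ 2 : ℤ) ≠ 0 := by
    intro h0
    have hz : (n * √2 - p) * (n * √2 + p) = 0 := by rw [h4, h0]; simp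
    have hirr := irrational_sqrt_two
    rcases mul_eq_zero.1 hz with h | h
    · apply hirr
      refine ⟨(p : ℚ) / n, ?_⟩
      push_cast
      rw [div_eq_iff (by positivity)]
      linarith
    · apply hirr
      refine ⟨(-p : ℚ) / n, ?_⟩
      push_cast
      rw [div_eq_iff (by positivity)]
      linarith
  have h6 : (1 : ℝ) ≤ |(n * √2 - p) * (n * √2 + p)| := by
    rw [h4]
    have := Int.one_le_abs h5
    rw [← Int.cast_abs]
    exact_mod_cast this
  rw [abs_mul] at h6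
  have h7 : |(n : ℝ) * √2 - p| * |(n : ℝ) * √2 + p| ≤ 1 / (4 * n) * (2 * (n * √2) + 1 / 4) := by
    gcongr
  have h8 : 1 / (4 * (n : ℝ)) * (2 * (n * √2) + 1 / 4) = √2 / 2 + 1 / (16 * n) := by
    field_simp
    ring
  have h9 : 1 / (16 * (n : ℝ)) ≤ 1 / 16 := by
    apply one_div_le_one_div_of_le (by norm_num) (by linarith)
  rw [h8] at h7
  norm_num at hs1
  linarith

/-- `x = 3 - 2√2` -/
noncomputable def xx : ℝ := 3 - 2 * √2

theorem sqrt2_bounds : 1.4142 < √2 ∧ √2 < 1.4143 := by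
  constructor
  · rw [Real.lt_sqrt (by norm_num)]; norm_num
  · rw [Real.sqrt_lt' (by norm_num)]; norm_num

theorem xx_bounds : 0.1714 < xx ∧ xx < 0.1716 := by
  obtain ⟨h1, h2⟩ := sqrt2_bounds
  unfold xx
  constructor <;> norm_num at * <;> linarith

theorem xx_pos : 0 < xx := lt_trans (by norm_num) xx_bounds.1

/-- Pell numbers -/
def HP : ℕ → ℕ × ℕ
  | 0 => (1, 0)
  | n + 1 => (3 * (HP n).1 + 4 * (HP n).2, 2 * (HP n).1 + 3 * (HP n).2)

theorem HP_x (n : ℕ) : xx ^ n = ((HP n).1 : ℝ) - (HP n).2 * √2 := by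
  have hs : √2 ^ 2 = 2 := Real.sq_sqrt (by norm_num)
  induction n with
  | zero => simp [HP]
  | succ n ih =>
    rw [pow_succ, ih]
    simp only [HP, xx]
    push_cast
    nlinarith

theorem HP_y (n : ℕ) : (3 + 2 * √2) ^ n = ((HP n).1 : ℝ) + (HP n).2 * √2 := by
  have hs : √2 ^ 2 = 2 := Real.sq_sqrt (by norm_num)
  induction n with
  | zero => simp [HP]
  | succ n ih =>
    rw [pow_succ, ih]
    simp only [HP]
    push_cast
    nlinarith

theorem P_ge (n : ℕ) : 2 ≤ (HP (n + 1)).2 := by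
  have h1 : 1 ≤ (HP n).1 := by
    induction n with
    | zero => simp [HP]
    | succ n ih => simp only [HP]; omega
  simp only [HP]; omega

/-- `P_n x^n ≤ 1/(2√2)` -/
theorem P_x (n : ℕ) : ((HP n).2 : ℝ) * xx ^ n * (2 * √2) ≤ 1 := by
  have hs : √2 ^ 2 = 2 := Real.sq_sqrt (by norm_num)
  have h1 : xx * (3 + 2 * √2) = 1 := by unfold xx; nlinarith
  have h2 : xx ^ n * (3 + 2 * √2) ^ n = 1 := by rw [← mul_pow, h1, one_pow]
  have h3 := pow_pos xx_pos n
  have h4 := HP_x n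
  have h5 : ((HP n).1 : ℝ) ≥ (HP n).2 * √2 := by linarith
  rw [HP_y] at h2
  nlinarith

/-- the sequence of times -/
def cs : ℕ → ℕ
  | 0 => 0
  | t + 1 => cs t + (HP (cs t + 1)).2

/-- integer parts -/
def ms : ℕ → ℕ
  | 0 => 0
  | t + 1 => ms t + (HP (cs t + 1)).1

theorem cs_step (t : ℕ) : cs t + 2 ≤ cs (t + 1) := by
  have := P_ge (cs t)
  simp only [cs]; omega

theorem cs_add (t s : ℕ) : cs t + 2 * s ≤ cs (t + s) := by
  induction s with
  | zero => simp
  | succ s ih =>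
    have := cs_step (t + s)
    rw [← add_assoc]; omega

theorem cs_unbounded (c : ℕ) : ∃ t, cs t ≤ c ∧ c < cs (t + 1) := by
  have hex : ∃ t, c < cs (t + 1) := ⟨c, by have := cs_add 0 (c + 1); simp only [zero_add] at this; omega⟩
  classical
  refine ⟨Nat.find hex, ?_, Nat.find_spec hex⟩
  by_cases h : Nat.find hex = 0
  · rw [h]; simp [cs]
  · have := Nat.find_min hex (m := Nat.find hex - 1) (by omega)
    rw [show Nat.find hex - 1 + 1 = Nat.find hex by omega] at this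
    omega

/-- `θ_t` -/
noncomputable def th (t : ℕ) : ℝ := ∑' s, xx ^ (cs (t + s) + 1)

theorem th_summable (t : ℕ) : Summable fun s => xx ^ (cs (t + s) + 1) := by
  have hx := xx_bounds
  have h1 : xx < 1 := lt_trans hx.2 (by norm_num)
  refine Summable.of_nonneg_of_le (fun s => pow_nonneg xx_pos.le _) (fun s => ?_)
    (summable_geometric_of_lt_one xx_pos.le h1)
  exact pow_le_pow_of_le_one xx_pos.le h1.le (by have := cs_add t s; omega)

theorem th_succ (t : ℕ) : th t = xx ^ (cs t + 1) + th (t + 1) := by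
  unfold th
  rw [(th_summable t).tsum_eq_zero_add]
  congr 1
  apply tsum_congr
  intro s
  rw [show t + (s + 1) = t + 1 + s by omega]

theorem th_eq (t : ℕ) : th 0 + cs t * √2 = ms t + th t := by
  induction t with
  | zero => simp [cs, ms]
  | succ t ih =>
    rw [th_succ t] at ih
    have h := HP_x (cs t + 1)
    simp only [cs, ms]
    push_cast
    linarith

theorem th_pos (t : ℕ) : 0 < th t := by
  have h1 := (th_summable t).le_tsum 0 (fun s _ => pow_nonneg xx_pos.le _)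
  have h2 := pow_pos xx_pos (cs (t + 0) + 1)
  unfold th
  linarith

theorem th_le (t : ℕ) : th t ≤ 1.04 * xx ^ (cs t + 1) := by
  have hx := xx_bounds
  have hx0 := xx_pos
  have h1 : xx ^ 2 < 1 := by nlinarith
  have hs : HasSum (fun s => xx ^ (cs t + 1) * (xx ^ 2) ^ s) (xx ^ (cs t + 1) * (1 - xx ^ 2)⁻¹) :=
    (hasSum_geometric_of_lt_one (by positivity) h1).mul_left _
  have h2 : th t ≤ xx ^ (cs t + 1) * (1 - xx ^ 2)⁻¹ := by
    rw [← hs.tsum_eq]
    refine (th_summable t).tsum_le_tsum (fun s => ?_) hs.summable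
    rw [← pow_mul, ← pow_add]
    exact pow_le_pow_of_le_one hx0.le (by linarith) (by have := cs_add t s; omega)
  have h3 : (1 - xx ^ 2)⁻¹ ≤ 1.04 := by
    rw [inv_le_comm₀ (by linarith) (by norm_num)]
    nlinarith
  have h4 := pow_pos hx0 (cs t + 1)
  nlinarith

/-- lower bound for `n√2 - θ - p` -/
theorem low_aux (n : ℕ) (hn : 1 ≤ n) (c : ℕ) (θ : ℝ) (κ₁ κ₂ : ℝ) (hκ₁ : 0 < κ₁)
    (h1 : (n : ℝ) * xx ^ (c + 1) ≤ κ₁) (h2 : |θ| ≤ κ₂ * xx ^ (c + 1)) (p : ℤ) :
    (1 / (4 * κ₁) - κ₂) * xx ^ (c + 1) ≤ |n * √2 - θ - p| := by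
  have hd := sqrt2_dio n hn p
  have hx := pow_pos xx_pos (c + 1)
  have hn' : (0 : ℝ) < n := by exact_mod_cast hn
  have h3 : 1 / (4 * κ₁) * xx ^ (c + 1) ≤ 1 / (4 * (n : ℝ)) := by
    rw [one_div, one_div, ← div_eq_inv_mul, inv_eq_one_div, div_le_div_iff₀ (by positivity) (by positivity)]
    nlinarith
  have h4 : |(n : ℝ) * √2 - p| ≤ |n * √2 - θ - p| + |θ| := by
    have := abs_add_le (n * √2 - θ - p) θ
    rw [show n * √2 - θ - p + θ = (n : ℝ) * √2 - p by ring] at this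
    exact this
  nlinarith

theorem dist_minus (c : ℕ) (p : ℤ) : 0.6 * xx ^ (c + 1) ≤ |c * √2 + th 0 - p| := by
  obtain ⟨t, ht1, ht2⟩ := cs_unbounded c
  have hx := xx_bounds
  have hx0 := xx_pos
  have hx1 : xx ≤ 1 := by linarith
  obtain ⟨hs1, hs2⟩ := sqrt2_bounds
  have heq := th_eq (t + 1)
  have hn : 1 ≤ cs (t + 1) - c := by omega
  have hP : ((cs (t + 1) - c : ℕ) : ℝ) ≤ (HP (cs t + 1)).2 := by
    have : cs (t + 1) - c ≤ (HP (cs t + 1)).2 := by simp only [cs]; omega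
    exact_mod_cast this
  have hPx := P_x (cs t + 1)
  have h1 : ((cs (t + 1) - c : ℕ) : ℝ) * xx ^ (cs t + 1) ≤ 1 / 2.8 := by
    have hpp := pow_pos hx0 (cs t + 1)
    have h3 : ((cs (t + 1) - c : ℕ) : ℝ) * xx ^ (cs t + 1) ≤ (HP (cs t + 1)).2 * xx ^ (cs t + 1) := by
      gcongr
    have h5 : (0 : ℝ) ≤ (HP (cs t + 1)).2 * xx ^ (cs t + 1) := by positivity
    have h4 : ((HP (cs t + 1)).2 : ℝ) * xx ^ (cs t + 1) * 2.8 ≤ 1 := by
      refine le_trans ?_ hPx
      refine mul_le_mul_of_nonneg_left ?_ h5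
      norm_num at hs1 ⊢; linarith
    have h6 : ((HP (cs t + 1)).2 : ℝ) * xx ^ (cs t + 1) ≤ 1 / 2.8 := by
      rw [le_div_iff₀ (by norm_num)]; exact h4
    exact h3.trans h6
  have h2 : |th (t + 1)| ≤ 0.04 * xx ^ (cs t + 1) := by
    rw [abs_of_pos (th_pos _)]
    refine (th_le (t + 1)).trans ?_
    have h3 : xx ^ (cs (t + 1) + 1) ≤ xx ^ (cs t + 1) * xx ^ 2 := by
      rw [← pow_add]
      exact pow_le_pow_of_le_one hx0.le hx1 (by have := cs_step t; omega)
    have h4 := pow_pos hx0 (cs t + 1)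
    have h5 : xx ^ 2 ≤ 0.0295 := by nlinarith
    nlinarith
  have h3 := low_aux (cs (t + 1) - c) hn (cs t) (th (t + 1)) (1 / 2.8) 0.04 (by norm_num) h1 h2
    ((ms (t + 1) : ℤ) - p)
  have e1 : ((cs (t + 1) - c : ℕ) : ℝ) * √2 - th (t + 1) - (((ms (t + 1) : ℤ) - p : ℤ) : ℝ) =
      -(c * √2 + th 0 - p) := by
    rw [Nat.cast_sub ht2.le]
    push_cast
    linarith
  rw [e1, abs_neg] at h3
  refine le_trans ?_ h3
  have h4 : xx ^ (c + 1) ≤ xx ^ (cs t + 1) := pow_le_pow_of_le_one hx0.le hx1 (by omega)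
  have h5 := pow_pos hx0 (cs t + 1)
  norm_num
  nlinarith

theorem y_growth (c : ℕ) : 2 * (c : ℝ) * xx ^ (c + 1) ≤ 1 / 4 := by
  have hx := xx_bounds
  have hx0 := xx_pos
  induction c with
  | zero => norm_num
  | succ c ih =>
    have h1 := pow_pos hx0 (c + 1)
    by_cases hc : c = 0
    · subst hc
      norm_num
      nlinarith
    · have hc' : (1 : ℝ) ≤ c := by exact_mod_cast Nat.one_le_iff_ne_zero.2 hc
      rw [pow_succ]
      push_cast
      have h2 : 2 * ((c : ℝ) + 1) ≤ 4 * c := by linarith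
      have h3 : 2 * ((c : ℝ) + 1) * (xx ^ (c + 1) * xx) ≤ 4 * c * (xx ^ (c + 1) * xx) := by gcongr
      have h4 : 4 * (c : ℝ) * (xx ^ (c + 1) * xx) = (2 * c * xx ^ (c + 1)) * (2 * xx) := by ring
      have h5 : 0 ≤ 2 * (c : ℝ) * xx ^ (c + 1) := by positivity
      nlinarith

theorem dist_plus (c : ℕ) (p : ℤ) : 0.2 * xx ^ (c + 1) ≤ |c * √2 - th 0 - p| := by
  obtain ⟨t, ht1, ht2⟩ := cs_unbounded c
  have hx := xx_bounds
  have hx0 := xx_pos
  have hx1 : xx ≤ 1 := by linarith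
  obtain ⟨hs1, hs2⟩ := sqrt2_bounds
  have heq := th_eq (t + 1)
  have hn : 1 ≤ c + cs (t + 1) := by omega
  have hP : ((c + cs (t + 1) : ℕ) : ℝ) ≤ 2 * c + (HP (cs t + 1)).2 := by
    have : c + cs (t + 1) ≤ 2 * c + (HP (cs t + 1)).2 := by simp only [cs]; omega
    exact_mod_cast this
  have hPx := P_x (cs t + 1)
  have h4 : xx ^ (c + 1) ≤ xx ^ (cs t + 1) := pow_le_pow_of_le_one hx0.le hx1 (by omega)
  have h1 : ((c + cs (t + 1) : ℕ) : ℝ) * xx ^ (c + 1) ≤ 0.61 := by
    have hpp := pow_pos hx0 (c + 1)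
    have hpp' := pow_pos hx0 (cs t + 1)
    have h3 : ((c + cs (t + 1) : ℕ) : ℝ) * xx ^ (c + 1) ≤ (2 * c + (HP (cs t + 1)).2) * xx ^ (c + 1) := by
      gcongr
    have h5 : (0 : ℝ) ≤ (HP (cs t + 1)).2 * xx ^ (cs t + 1) := by positivity
    have h6 : ((HP (cs t + 1)).2 : ℝ) * xx ^ (cs t + 1) * 2.8 ≤ 1 := by
      refine le_trans ?_ hPx
      refine mul_le_mul_of_nonneg_left ?_ h5
      norm_num at hs1 ⊢; linarith
    have h7 : ((HP (cs t + 1)).2 : ℝ) * xx ^ (c + 1) ≤ (HP (cs t + 1)).2 * xx ^ (cs t + 1) := by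
      gcongr
    have h8 := y_growth c
    have h9 : ((HP (cs t + 1)).2 : ℝ) * xx ^ (cs t + 1) ≤ 0.36 := by
      have h6' : ((HP (cs t + 1)).2 : ℝ) * xx ^ (cs t + 1) ≤ 1 / 2.8 := by
        rw [le_div_iff₀ (by norm_num)]; exact h6
      refine h6'.trans (by norm_num)
    have h10 : (2 * (c : ℝ) + (HP (cs t + 1)).2) * xx ^ (c + 1) =
        2 * (c : ℝ) * xx ^ (c + 1) + (HP (cs t + 1)).2 * xx ^ (c + 1) := by ring
    rw [h10] at h3
    refine h3.trans ?_
    refine (add_le_add h8 (h7.trans h9)).trans (by norm_num)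
  have h2 : |th (t + 1)| ≤ 0.18 * xx ^ (c + 1) := by
    rw [abs_of_pos (th_pos _)]
    refine (th_le (t + 1)).trans ?_
    have h3 : xx ^ (cs (t + 1) + 1) ≤ xx ^ (c + 1) * xx ^ 1 := by
      rw [← pow_add]
      exact pow_le_pow_of_le_one hx0.le hx1 (by omega)
    have h4 := pow_pos hx0 (c + 1)
    rw [pow_one] at h3
    nlinarith
  have h3 := low_aux (c + cs (t + 1)) hn c (th (t + 1)) 0.61 0.18 (by norm_num) h1 h2
    ((ms (t + 1) : ℤ) + p)
  have e1 : ((c + cs (t + 1) : ℕ) : ℝ) * √2 - th (t + 1) - (((ms (t + 1) : ℤ) + p : ℤ) : ℝ) =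
      (c * √2 - th 0 - p) := by
    push_cast
    linarith
  rw [e1] at h3
  refine le_trans ?_ h3
  have h5 := pow_pos hx0 (c + 1)
  norm_num
  nlinarith


/-! ## The example -/

/-- the neutral multiplier -/
noncomputable def rho : ℂ := ee (-√2)

/-- the ratio of two contracting multipliers -/
noncomputable def uu : ℂ := ee (th 0)

theorem rho_norm : ‖rho‖ = 1 := ee_norm _

theorem uu_norm : ‖uu‖ = 1 := ee_norm _

theorem rho_pow (c : ℕ) : rho ^ c = ee (-(c * √2)) := by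
  rw [rho, ee_pow]; congr 1; ring

theorem rho_dio (n : ℕ) (hn : 1 ≤ n) : (1 / 4 : ℝ) / n ≤ ‖rho ^ n - 1‖ := by
  rw [rho_pow]
  apply ee_lower
  intro p
  have h := sqrt2_dio n hn (-p)
  have e : |-(n * √2) - (p : ℝ)| = |n * √2 - ((-p : ℤ) : ℝ)| := by
    rw [← abs_neg]; congr 1; push_cast; ring
  rw [e]
  refine le_trans (le_of_eq ?_) h
  field_simp

theorem xx_low (c : ℕ) : (1 / 2 : ℝ) ^ (3 * c + 5 + 1) < 0.2 * xx ^ (c + 1) := by
  have hx := xx_bounds
  have h1 : (1 / 8 : ℝ) ^ (c + 1) ≤ xx ^ (c + 1) :=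
    pow_le_pow_left₀ (by norm_num) (by norm_num at hx ⊢; linarith [hx.1]) _
  have h2 : (1 / 2 : ℝ) ^ (3 * c + 5 + 1) = (1 / 8) * (1 / 8 : ℝ) ^ (c + 1) := by
    rw [show 3 * c + 5 + 1 = 3 * (c + 1) + 3 by ring, pow_add, pow_mul]
    norm_num
    ring
  have h3 : (0 : ℝ) < (1 / 8 : ℝ) ^ (c + 1) := by positivity
  rw [h2]
  norm_num
  nlinarith

theorem low_one (c : ℕ) (hc : 1 ≤ c) : (1 / 2 : ℝ) ^ (1 * c + 2 + 1) < ‖1 * rho ^ c - 1‖ := by
  rw [one_mul (rho ^ c)]
  refine lt_of_lt_of_le ?_ (rho_dio c hc)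
  have hc' : (0 : ℝ) < c := by exact_mod_cast hc
  rw [lt_div_iff₀ hc']
  have h1 : (c : ℝ) < 2 ^ c := by exact_mod_cast Nat.lt_two_pow_self
  have h2 : (1 / 2 : ℝ) ^ (1 * c + 2 + 1) * 2 ^ c = 1 / 8 := by
    rw [one_mul, add_assoc, pow_add, mul_assoc, mul_comm _ ((2 : ℝ) ^ c), ← mul_assoc, ← mul_pow]
    norm_num
  have h3 : (0 : ℝ) < (1 / 2 : ℝ) ^ (1 * c + 2 + 1) := by positivity
  nlinarith

theorem low_u (c : ℕ) (_hc : 1 ≤ c) : (1 / 2 : ℝ) ^ (3 * c + 5 + 1) < ‖uu * rho ^ c - 1‖ := by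
  refine lt_of_lt_of_le (xx_low c) ?_
  rw [rho_pow, uu, ← ee_add]
  apply ee_lower
  intro p
  have h := dist_plus c (-p)
  have e : |th 0 + -(c * √2) - (p : ℝ)| = |c * √2 - th 0 - ((-p : ℤ) : ℝ)| := by
    rw [← abs_neg]; congr 1; push_cast; ring
  rw [e]; exact h

theorem low_uinv (c : ℕ) (_hc : 1 ≤ c) : (1 / 2 : ℝ) ^ (3 * c + 5 + 1) < ‖uu⁻¹ * rho ^ c - 1‖ := by
  refine lt_of_lt_of_le (xx_low c) ?_
  have hinv : uu⁻¹ = ee (-th 0) := by
    rw [uu, inv_eq_of_mul_eq_one_left (ee_neg (th 0))]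
  rw [rho_pow, hinv, ← ee_add]
  apply ee_lower
  intro p
  have h := dist_minus c (-p)
  have e : |-th 0 + -(c * √2) - (p : ℝ)| = |c * √2 + th 0 - ((-p : ℤ) : ℝ)| := by
    rw [← abs_neg]; congr 1; push_cast; ring
  rw [e]
  refine le_trans ?_ h
  have := pow_pos xx_pos (c + 1)
  norm_num
  nlinarith

/-- the eigenvalues -/
noncomputable def lam (n : ℕ) (i : Fin n) : ℂ :=
  if i.val = 0 then rho else if i.val = 1 then uu / 2 else 1 / 2

theorem main_weight (n : ℕ) (hn : 3 ≤ n) :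
    ∃ (D : (Fin n → ℕ) → ℝ) (B : ℝ), (∀ k, 0 < D k) ∧ 0 < B ∧ (∀ k, D k ≤ B ^ (∑ i, k i)) ∧
      (∀ k k', k ≠ 0 → k' ≠ 0 → D k * D k' ≤ D (k + k')) ∧
      (∀ k k', k ≠ 0 → k' ≠ 0 → ∀ j,
        D k * D k' ≤ D (k + k') * ‖∏ i, lam n i ^ ((k + k') i) - lam n j‖) := by
  obtain ⟨K, C₀, hC₀, hK1, hK2, hK3⟩ := exists_K rho (1 / 4) rho_norm (by norm_num) rho_dio
  obtain ⟨J₁, C₁, hC₁, hJ₁, hm₁, hs₁⟩ := exists_J rho (1 / 4) rho_norm (by norm_num) rho_dio
    1 (by simp) 1 2 low_one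
  obtain ⟨J₂, C₂, hC₂, hJ₂, hm₂, hs₂⟩ := exists_J rho (1 / 4) rho_norm (by norm_num) rho_dio
    uu uu_norm 3 5 low_u
  obtain ⟨J₃, C₃, hC₃, hJ₃, hm₃, hs₃⟩ := exists_J rho (1 / 4) rho_norm (by norm_num) rho_dio
    uu⁻¹ (by rw [norm_inv, uu_norm, inv_one]) 3 5 low_uinv
  have hu0 : uu ≠ 0 := ee_ne_zero _
  have hlog24 : Real.log 2 ≤ Real.log 4 := Real.log_le_log (by norm_num) (by norm_num)
  have hlam0 : lam n ⟨0, by omega⟩ = rho := by simp [lam]
  have hlamne : ∀ i : Fin n, i ≠ ⟨0, by omega⟩ → lam n i = uu / 2 ∨ lam n i = 1 / 2 := by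
    intro i hi
    have : i.val ≠ 0 := fun h => hi (Fin.ext h)
    unfold lam
    rw [if_neg this]
    split_ifs
    · left; rfl
    · right; rfl
  have hnorm : ∀ i : Fin n, i ≠ ⟨0, by omega⟩ → ‖lam n i‖ = 1 / 2 := by
    intro i hi
    rcases hlamne i hi with h | h <;> rw [h]
    · rw [norm_div, uu_norm]; norm_num
    · norm_num
  -- the ratios
  have ratio : ∀ c : ℕ, 1 ≤ c → ∀ i j : Fin n, i ≠ ⟨0, by omega⟩ → j ≠ ⟨0, by omega⟩ →
      ∃ w : ℂ, (w = 1 ∨ w = uu ∨ w = uu⁻¹) ∧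
        lam n i * rho ^ c - lam n j = lam n j * (w * rho ^ c - 1) := by
    intro c hc i j hi hj
    rcases hlamne i hi with h | h <;> rcases hlamne j hj with h' | h' <;> rw [h, h']
    · exact ⟨1, Or.inl rfl, by ring⟩
    · exact ⟨uu, Or.inr (Or.inl rfl), by ring⟩
    · exact ⟨uu⁻¹, Or.inr (Or.inr rfl), by field_simp⟩
    · exact ⟨1, Or.inl rfl, by ring⟩
  have wpos : ∀ c : ℕ, 1 ≤ c → ∀ w : ℂ, (w = 1 ∨ w = uu ∨ w = uu⁻¹) → 0 < ‖w * rho ^ c - 1‖ := by
    rintro c hc w (rfl | rfl | rfl)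
    · exact lt_trans (by positivity) (low_one c hc)
    · exact lt_trans (by positivity) (low_u c hc)
    · exact lt_trans (by positivity) (low_uinv c hc)
  refine exists_weight ⟨0, by omega⟩ (lam n) (by rw [hlam0]; exact rho_norm) hnorm K
    (fun c => J₁ c + J₂ c + J₃ c) (Real.log 4) (C₀ + C₁ + C₂ + C₃) le_rfl (by positivity)
    ?_ ?_ ?_ hK2 ?_ ?_ ?_ ?_
  · intro c
    have h := hK1 c
    have hc : (0 : ℝ) ≤ c := Nat.cast_nonneg c
    nlinarith [mul_nonneg hC₁ hc, mul_nonneg hC₂ hc, mul_nonneg hC₃ hc]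
  · intro c
    have h1 := hJ₁ c
    have h2 := hJ₂ c
    have h3 := hJ₃ c
    have hc : (0 : ℝ) ≤ (c : ℝ) + 1 := by positivity
    nlinarith [mul_nonneg hC₀ hc]
  · exact (hm₁.add hm₂).add hm₃
  · intro a b ha hb
    rw [hlam0]
    have := hK3 a b ha hb
    linarith
  · intro c hc i j hi hj
    rw [hlam0]
    obtain ⟨w, hw, e⟩ := ratio c hc i j hi hj
    have hp := wpos c hc w hw
    rw [e, norm_mul, hnorm j hj, Real.log_mul (by norm_num) hp.ne', one_div, Real.log_inv]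
    have m1 := hm₁ (Nat.sub_le c 1)
    have m2 := hm₂ (Nat.sub_le c 1)
    have m3 := hm₃ (Nat.sub_le c 1)
    rcases hw with rfl | rfl | rfl
    · have := hs₁ c hc
      linarith
    · have := hs₂ c hc
      linarith
    · have := hs₃ c hc
      linarith
  · intro c hc h
    rw [hlam0] at h
    have h1 := rho_dio (c - 1) (by omega)
    have h2 : rho ^ (c - 1) = 1 := by
      have hne : rho ≠ 0 := ee_ne_zero _
      have : rho * rho ^ (c - 1) = rho * 1 := by
        rw [← pow_succ', mul_one]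
        rw [show c - 1 + 1 = c by omega]; exact h
      exact mul_left_cancel₀ hne this
    rw [h2, sub_self, norm_zero] at h1
    have h3 : (0 : ℝ) < (1 / 4) / ((c - 1 : ℕ) : ℝ) := by
      have : (0 : ℝ) < ((c - 1 : ℕ) : ℝ) := by exact_mod_cast (by omega : 0 < c - 1)
      positivity
    linarith
  · intro c hc i j hi hj h
    rw [hlam0] at h
    obtain ⟨w, hw, e⟩ := ratio c hc i j hi hj
    have hp := wpos c hc w hw
    have hz : lam n i * rho ^ c - lam n j = 0 := sub_eq_zero.2 h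
    rw [e] at hz
    rcases mul_eq_zero.1 hz with h1 | h1
    · have := hnorm j hj
      rw [h1, norm_zero] at this
      norm_num at this
    · rw [h1, norm_zero] at hp
      exact lt_irrefl _ hp

theorem main_nores (n : ℕ) (hn : 3 ≤ n) : NoResonance (lam n) := by
  obtain ⟨D, B, hD0, hB0, hB, hD1, hD2⟩ := main_weight n hn
  intro k hk j h
  have hne : ∃ i, k i ≠ 0 := by
    by_contra hcon
    push Not at hcon
    have : ∑ i, k i = 0 := Finset.sum_eq_zero fun i _ => hcon i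
    omega
  obtain ⟨i, hi⟩ := hne
  have h1 : (Pi.single i 1 : Fin n → ℕ) ≠ 0 := by
    intro h; have := congrFun h i; simp at this
  have hle : (Pi.single i 1 : Fin n → ℕ) ≤ k := by
    intro l
    by_cases hl : l = i
    · subst hl; simp; omega
    · simp [hl]
  have hadd : (Pi.single i 1 : Fin n → ℕ) + (k - Pi.single i 1) = k := add_tsub_cancel_of_le hle
  have h2 : k - Pi.single i 1 ≠ 0 := by
    intro h
    rw [h, add_zero] at hadd
    rw [← hadd] at hk
    simp at hk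
  have h3 := hD2 _ _ h1 h2 j
  rw [hadd, h, sub_self, norm_zero, mul_zero] at h3
  exact absurd h3 (not_le.2 (mul_pos (hD0 _) (hD0 _)))

theorem Omega_set_finite {n : ℕ} (lam : Fin n → ℂ) (m : ℕ) :
    {x : ℝ | ∃ (k : Fin n → ℕ) (j : Fin n), 2 ≤ ∑ i, k i ∧ ∑ i, k i ≤ m ∧
    ∏ i, lam i ^ k i ≠ lam j ∧ x = ‖∏ i, lam i ^ k i - lam j‖}.Finite := by
  have hfin : {k : Fin n → ℕ | ∑ i, k i ≤ m}.Finite := by
    apply Set.Finite.subset (Set.finite_Iic (fun _ : Fin n => m))
    intro k hk i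
    exact (Finset.single_le_sum (f := k) (fun _ _ => Nat.zero_le _) (Finset.mem_univ i)).trans hk
  have h2 := (hfin.prod (Set.finite_univ : (Set.univ : Set (Fin n)).Finite)).image
    (fun x : (Fin n → ℕ) × Fin n => ‖∏ i, lam i ^ x.1 i - lam x.2‖)
  refine h2.subset ?_
  rintro x ⟨k, j, _, hk, _, rfl⟩
  exact ⟨(k, j), ⟨hk, Set.mem_univ _⟩, rfl⟩

theorem Omega_le {n : ℕ} (lam : Fin n → ℂ) (m : ℕ) (k : Fin n → ℕ) (j : Fin n)
    (h1 : 2 ≤ ∑ i, k i) (h2 : ∑ i, k i ≤ m) (h3 : ∏ i, lam i ^ k i ≠ lam j) :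
    Omega lam m ≤ ‖∏ i, lam i ^ k i - lam j‖ ∧ 0 < Omega lam m := by
  have hfin := Omega_set_finite lam m
  have hmem : ‖∏ i, lam i ^ k i - lam j‖ ∈ {x : ℝ | ∃ (k : Fin n → ℕ) (j : Fin n),
    2 ≤ ∑ i, k i ∧ ∑ i, k i ≤ m ∧
    ∏ i, lam i ^ k i ≠ lam j ∧ x = ‖∏ i, lam i ^ k i - lam j‖} := ⟨k, j, h1, h2, h3, rfl⟩
  refine ⟨csInf_le hfin.bddBelow hmem, ?_⟩
  obtain ⟨k', j', _, _, hne, hx⟩ := Set.Nonempty.csInf_mem ⟨_, hmem⟩ hfin
  unfold Omega
  rw [hx]
  exact norm_pos_iff.2 (sub_ne_zero.2 hne)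

theorem prod_two {n : ℕ} (lam : Fin n → ℂ) (i j : Fin n) (a : ℕ) :
    ∏ l, lam l ^ ((Pi.single i a + Pi.single j 1 : Fin n → ℕ) l) = lam i ^ a * lam j := by
  simp only [Pi.add_apply, pow_add, Finset.prod_mul_distrib]
  have h : ∀ (i : Fin n) (a : ℕ), ∏ l, lam l ^ ((Pi.single i a : Fin n → ℕ) l) = lam i ^ a := by
    intro i a
    rw [Finset.prod_eq_single i]
    · simp
    · intro l _ hl
      simp [hl]
    · intro h; exact absurd (Finset.mem_univ _) h
  rw [h, h, pow_one]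

theorem main_div (n : ℕ) (hn : 3 ≤ n) : BrjunoSeriesDiverges (lam n) := by
  have hnores := main_nores n hn
  have hlog2 : 0 < Real.log 2 := Real.log_pos (by norm_num)
  have hl0 : lam n ⟨0, by omega⟩ = rho := by simp [lam]
  have hl1 : lam n ⟨1, by omega⟩ = uu / 2 := by simp [lam]
  have hl2 : lam n ⟨2, by omega⟩ = 1 / 2 := by simp [lam]
  have hsum : ∀ (i j : Fin n) (a : ℕ),
      ∑ l, (Pi.single i a + Pi.single j 1 : Fin n → ℕ) l = a + 1 := by
    intro i j a
    simp [Finset.sum_add_distrib]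
  unfold BrjunoSeriesDiverges
  rw [← not_summable_iff_tendsto_nat_atTop_of_nonneg]
  · -- large terms
    intro hsummable
    have htend := hsummable.tendsto_atTop_zero
    have hev := htend.eventually (gt_mem_nhds hlog2)
    obtain ⟨N, hN⟩ := eventually_atTop.1 hev
    -- choose `t` with `cs t` large
    set t := 2 ^ N with ht
    set c := cs t with hc
    have hct : 2 * t ≤ c := by
      have h := cs_add 0 t
      rw [zero_add] at h
      have h0 : cs 0 = 0 := rfl
      rw [h0, zero_add] at h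
      exact h
    have htpos : 1 ≤ t := Nat.one_le_two_pow
    have hc1 : 1 ≤ c := by omega
    set p := Nat.log 2 c with hp
    have hp1 : 2 ^ p ≤ c := Nat.pow_log_le_self 2 (by omega)
    have hp2 : c < 2 ^ (p + 1) := Nat.lt_pow_succ_log_self (by norm_num) c
    have hpN : N ≤ p := by
      have : 2 ^ N < 2 ^ (p + 1) := by omega
      have := (Nat.pow_lt_pow_iff_right (by norm_num : 1 < 2)).1 this
      omega
    have hterm := hN p hpN
    -- the near resonance
    let k : Fin n → ℕ := Pi.single ⟨0, by omega⟩ c + Pi.single ⟨2, by omega⟩ 1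
    have hk : ∑ i, k i = c + 1 := hsum _ _ _
    have hprod : ∏ i, lam n i ^ k i = rho ^ c * (1 / 2) := by
      have := prod_two (lam n) ⟨0, by omega⟩ ⟨2, by omega⟩ c
      rw [hl0, hl2] at this
      exact this
    have hO := Omega_le (lam n) (2 ^ (p + 1)) k ⟨1, by omega⟩ (by omega) (by omega)
      (hnores k (by omega) _)
    rw [hprod, hl1] at hO
    have hval : ‖rho ^ c * (1 / 2) - uu / 2‖ ≤ xx ^ c := by
      have e1 : rho ^ c * (1 / 2) - uu / 2 = (uu / 2) * (ee (-th t) - 1) := by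
        have h1 := th_eq t
        have h2 : rho ^ c = uu * ee (-th t) := by
          rw [rho_pow, uu, ← ee_add]
          have h3 : -(c * √2) = (th 0 + -th t) + ((-(ms t : ℤ) : ℤ) : ℝ) := by
            push_cast
            linarith
          rw [h3, ee_add, ee_int, mul_one]
        rw [h2]; ring
      rw [e1, norm_mul, norm_div, uu_norm]
      have h4 := ee_upper (-th t)
      rw [abs_neg, abs_of_pos (th_pos t)] at h4
      have h5 := th_le t
      have hpi := Real.pi_lt_d2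
      have hpi0 := Real.pi_pos
      have hx := xx_bounds
      have hxc := pow_pos xx_pos c
      have h6 : xx ^ (cs t + 1) = xx ^ c * xx := pow_succ _ _
      rw [h6] at h5
      have h7 : (1 : ℝ) / ‖(2 : ℂ)‖ = 1 / 2 := by norm_num
      rw [h7]
      have h8 : Real.pi * th t ≤ xx ^ c := by
        have h9 : th t ≤ 1.04 * (xx ^ c * 0.1716) := by
          refine h5.trans ?_
          have : xx ^ c * xx ≤ xx ^ c * 0.1716 := mul_le_mul_of_nonneg_left hx.2.le hxc.le
          linarith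
        have h10 : Real.pi * th t ≤ 3.15 * (1.04 * (xx ^ c * 0.1716)) :=
          mul_le_mul hpi.le h9 (th_pos t).le (by norm_num)
        norm_num at h10 ⊢
        linarith
      linarith
    have hOx : Omega (lam n) (2 ^ (p + 1)) ≤ xx ^ c := hO.1.trans hval
    have hhalf : xx ^ c ≤ (1 / 2 : ℝ) ^ c := by
      apply pow_le_pow_left₀ xx_pos.le
      have := xx_bounds.2
      norm_num at this ⊢
      linarith
    have hlogO : (c : ℝ) * Real.log 2 ≤ Real.log (1 / Omega (lam n) (2 ^ (p + 1))) := by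
      rw [one_div, Real.log_inv]
      have h1 : Real.log (Omega (lam n) (2 ^ (p + 1))) ≤ Real.log ((1 / 2 : ℝ) ^ c) :=
        Real.log_le_log hO.2 (hOx.trans hhalf)
      rw [Real.log_pow, one_div, Real.log_inv] at h1
      linarith
    have hfin : Real.log 2 ≤ (1 / 2 : ℝ) ^ p * Real.log (1 / Omega (lam n) (2 ^ (p + 1))) := by
      have h1 : (1 / 2 : ℝ) ^ p * ((c : ℝ) * Real.log 2) ≤
          (1 / 2 : ℝ) ^ p * Real.log (1 / Omega (lam n) (2 ^ (p + 1))) := by gcongr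
      refine le_trans ?_ h1
      have h2 : (2 : ℝ) ^ p ≤ c := by exact_mod_cast hp1
      have h3 : (1 / 2 : ℝ) ^ p * 2 ^ p = 1 := by rw [← mul_pow]; norm_num
      have h4 : (1 : ℝ) ≤ (1 / 2 : ℝ) ^ p * c := by
        calc (1 : ℝ) = (1 / 2 : ℝ) ^ p * 2 ^ p := h3.symm
          _ ≤ (1 / 2 : ℝ) ^ p * c := by gcongr
      nlinarith
    linarith
  · -- nonnegative terms
    intro p
    have hk : ∑ i, (Pi.single (⟨2, by omega⟩ : Fin n) 1 + Pi.single ⟨2, by omega⟩ 1 : Fin n → ℕ) i = 2 := by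
      rw [hsum]
    have hpow : 2 ≤ 2 ^ (p + 1) := by
      calc 2 = 2 ^ 1 := rfl
        _ ≤ 2 ^ (p + 1) := Nat.pow_le_pow_right (by norm_num) (by omega)
    have hO := Omega_le (lam n) (2 ^ (p + 1))
      (Pi.single (⟨2, by omega⟩ : Fin n) 1 + Pi.single ⟨2, by omega⟩ 1) ⟨2, by omega⟩
      (by rw [hk]) (by rw [hk]; exact hpow) (hnores _ (by rw [hk]) _)
    have hprod : ∏ l, lam n l ^ ((Pi.single (⟨2, by omega⟩ : Fin n) 1 +
        Pi.single ⟨2, by omega⟩ 1 : Fin n → ℕ) l) = 1 / 2 * (1 / 2) := by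
      simp only [Pi.add_apply, pow_add, Finset.prod_mul_distrib]
      have h : ∏ l, lam n l ^ ((Pi.single (⟨2, by omega⟩ : Fin n) 1 : Fin n → ℕ) l) = 1 / 2 := by
        rw [Finset.prod_eq_single (⟨2, by omega⟩ : Fin n)]
        · simp [hl2]
        · intro l _ hl
          simp [hl]
        · intro h; exact absurd (Finset.mem_univ _) h
      rw [h]
    rw [hprod, hl2] at hO
    have h1 : ‖(1 / 2 * (1 / 2) - 1 / 2 : ℂ)‖ ≤ 1 := by
      rw [show (1 / 2 * (1 / 2) - 1 / 2 : ℂ) = -(1 / 4) by norm_num, norm_neg]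
      norm_num
    apply mul_nonneg (by positivity)
    apply Real.log_nonneg
    rw [le_div_iff₀ hO.2, one_mul]
    exact hO.1.trans h1

/-- **Main theorem.** For every `n ≥ 3` there is `λ ∈ ℂⁿ` with nonzero entries and without
resonances for which the Brjuno series diverges, and for which nevertheless *every* germ whose
differential is diagonalizable with eigenvalues `λ` is holomorphically linearizable. -/
theorem result (n : ℕ) (hn : 3 ≤ n) :
    ∃ lam : Fin n → ℂ, (∀ i, lam i ≠ 0) ∧ NoResonance lam ∧ BrjunoSeriesDiverges lam ∧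
      ∀ f : (Fin n → ℂ) → (Fin n → ℂ), AnalyticAt ℂ f 0 → f 0 = 0 →
        DiagonalizableWith f lam → HolLinearizable f := by
  refine ⟨lam n, ?_, main_nores n hn, main_div n hn, ?_⟩
  · intro i
    unfold lam
    split_ifs
    · exact ee_ne_zero _
    · exact div_ne_zero (ee_ne_zero _) (by norm_num)
    · norm_num
  · rintro f hf hf0 ⟨b, hb⟩
    obtain ⟨D, B, hD0, hB0, hB, hD1, hD2⟩ := main_weight n hn
    -- change of coordinates
    let S : (Fin n → ℂ) ≃L[ℂ] (Fin n → ℂ) := b.equivFunL.symm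
    have hS : ∀ z, S z = ∑ i, z i • b i := fun z => b.equivFun_symm_apply z
    let L : (Fin n → ℂ) →L[ℂ] (Fin n → ℂ) := fderiv ℂ f 0
    have hL : ∀ z, L (S z) = S (diagL (lam n) z) := by
      intro z
      rw [hS, hS, map_sum]
      refine Finset.sum_congr rfl fun i _ => ?_
      rw [map_smul, hb i, diagL_apply, smul_smul, mul_comm]
    let g : (Fin n → ℂ) → (Fin n → ℂ) := fun z => S.symm (f (S z))
    have hfd : HasFDerivAt f L 0 := hf.differentiableAt.hasFDerivAt
    have hg0 : g 0 = 0 := by simp [g, hf0]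
    have hgan : AnalyticAt ℂ g 0 := by
      have h1 : AnalyticAt ℂ (fun z => f (S z)) 0 := by
        apply AnalyticAt.fun_comp (g := f)
        · rw [map_zero]; exact hf
        · exact (S : (Fin n → ℂ) →L[ℂ] (Fin n → ℂ)).analyticAt 0
      exact ((S.symm : (Fin n → ℂ) →L[ℂ] (Fin n → ℂ)).analyticAt _).comp h1
    have hgd : HasFDerivAt g (diagL (lam n)) 0 := by
      have h1 : HasFDerivAt (fun z => f (S z))
          (L.comp (S : (Fin n → ℂ) →L[ℂ] (Fin n → ℂ))) 0 := by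
        have h2 : HasFDerivAt f L (S 0) := by rw [map_zero]; exact hfd
        exact h2.comp 0 S.hasFDerivAt
      have h3 := (S.symm : (Fin n → ℂ) →L[ℂ] (Fin n → ℂ)).hasFDerivAt.comp (0 : Fin n → ℂ) h1
      have e : (S.symm : (Fin n → ℂ) →L[ℂ] (Fin n → ℂ)).comp
          (L.comp (S : (Fin n → ℂ) →L[ℂ] (Fin n → ℂ))) = diagL (lam n) := by
        ext1 z
        change S.symm (L (S z)) = _
        rw [hL z, S.symm_apply_apply]
      rw [e] at h3
      exact h3
    obtain ⟨φ, hφan, hφ0, hφd, hφ⟩ :=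
      linearise (lam n) D hD0 B hB0 hB hD1 hD2 g hgan hg0 hgd
    refine ⟨fun z => S (φ (S.symm z)), ?_, ?_, ⟨ContinuousLinearEquiv.refl ℂ _, ?_⟩, ?_⟩
    · have h1 : AnalyticAt ℂ (fun z => φ (S.symm z)) 0 := by
        apply AnalyticAt.fun_comp (g := φ)
        · rw [map_zero]; exact hφan
        · exact (S.symm : (Fin n → ℂ) →L[ℂ] (Fin n → ℂ)).analyticAt 0
      exact ((S : (Fin n → ℂ) →L[ℂ] (Fin n → ℂ)).analyticAt _).comp h1
    · simp [hφ0]
    · have h1 : HasFDerivAt (fun z => φ (S.symm z))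
          ((ContinuousLinearMap.id ℂ (Fin n → ℂ)).comp
            (S.symm : (Fin n → ℂ) →L[ℂ] (Fin n → ℂ))) 0 := by
        have h2 : HasFDerivAt φ (ContinuousLinearMap.id ℂ (Fin n → ℂ)) (S.symm 0) := by
          rw [map_zero]; exact hφd
        exact h2.comp 0 S.symm.hasFDerivAt
      have h3 := (S : (Fin n → ℂ) →L[ℂ] (Fin n → ℂ)).hasFDerivAt.comp (0 : Fin n → ℂ) h1
      have e : (S : (Fin n → ℂ) →L[ℂ] (Fin n → ℂ)).comp
          ((ContinuousLinearMap.id ℂ (Fin n → ℂ)).comp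
            (S.symm : (Fin n → ℂ) →L[ℂ] (Fin n → ℂ))) =
          ((ContinuousLinearEquiv.refl ℂ (Fin n → ℂ) :
            (Fin n → ℂ) ≃L[ℂ] (Fin n → ℂ)) : (Fin n → ℂ) →L[ℂ] (Fin n → ℂ)) := by
        ext1 z
        change S (S.symm z) = z
        exact S.apply_symm_apply z
      rw [e] at h3
      exact h3
    · have hcont : Tendsto (fun z => S.symm z) (𝓝 0) (𝓝 0) := by
        have := (S.symm.continuous).tendsto 0
        rwa [map_zero] at this
      filter_upwards [hcont.eventually hφ] with z hz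
      have h1 : S.symm (f (S (φ (S.symm z)))) = φ (diagL (lam n) (S.symm z)) := hz
      have h2 : f (S (φ (S.symm z))) = S (φ (diagL (lam n) (S.symm z))) := by
        rw [← h1, S.apply_symm_apply]
      have h3 : S.symm (L z) = diagL (lam n) (S.symm z) := by
        have := hL (S.symm z)
        rw [S.apply_symm_apply] at this
        rw [this, S.symm_apply_apply]
      change f (S (φ (S.symm z))) = S (φ (S.symm (L z)))
      rw [h2, h3]

end Pool.Agent.Results.MP_0ef3a5_an.NotNecessary
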